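import Pool.Agent.H.MP_1dea36_gt.D
import Pool.Agent.H.MP_8a71fe_al.A

namespace Pool.Agent.H.MP_1dea36_gt
open MvPolynomial Finset Pool.Agent.HShift

variable {m : ℕ} {k : Type} [Field k] {A : Type} [CommRing A] [Algebra k A] {x : Fin m → A}

abbrev Kos (A : Type) [CommRing A] (m : ℕ) := ExteriorAlgebra A (Fin m → A)

noncomputable def uu (A : Type) [CommRing A] (F : Finset (Fin m)) :
    Kos A m := (Pi.basisFun A (Fin m)).ExteriorAlgebra F

noncomputable def ei (A : Type) [CommRing A] (j : Fin m) : Kos A m :=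
  ExteriorAlgebra.ι A (Pi.basisFun A (Fin m) j)

def mo (x : Fin m → A) (α : Fin m → ℕ) : A := ∏ i, x i ^ α i

theorem bb_eq (α : Fin m → ℕ) (F : Finset (Fin m)) : bb x α F = mo x α • uu A F := rfl

theorem mo_mul (α β : Fin m → ℕ) : mo x α * mo x β = mo x (α + β) := by
  simp only [mo, ← prod_mul_distrib, Pi.add_apply, pow_add]

theorem mo_single (j : Fin m) : mo x (Pi.single j 1) = x j := by
  rw [mo, prod_eq_single j (fun i _ h => by rw [Pi.single_eq_of_ne h, pow_zero]) (by simp)]
  simp

theorem uu_list (F : Finset (Fin m)) : uu A F = ((F.sort (· ≤ ·)).map (ei A)).prod := by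
  rw [uu, ExteriorAlgebra.basis_apply, ExteriorAlgebra.ιMulti_family, ExteriorAlgebra.ιMulti_apply,
    ← Finset.listMap_orderEmbOfFin_finRange F rfl, List.map_map, List.ofFn_eq_map]
  rfl

theorem uu_empty : uu A (∅ : Finset (Fin m)) = 1 := by simp [uu_list]

theorem uu_min {j : Fin m} {F : Finset (Fin m)} (h : ∀ x ∈ F, j < x) :
    uu A (insert j F) = ei A j * uu A F := by
  rw [uu_list, uu_list, Finset.sort_insert _ (fun x hx => (h x hx).le)
    (fun hj => lt_irrefl _ (h j hj)), List.map_cons, List.prod_cons]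

theorem sg_min {j : Fin m} {F : Finset (Fin m)} (h : ∀ x ∈ F, j < x) : sg k j F = 1 := by
  rw [sg, filter_eq_empty_iff.mpr fun x hx => (h x hx).not_gt, card_empty, pow_zero]

theorem sg_ins {j f : Fin m} {F : Finset (Fin m)} (h : f < j) (hf : f ∉ F) :
    sg k j (insert f F) = - sg k j F := by
  rw [sg, sg, filter_insert, if_pos h, card_insert_of_notMem (by simp [hf])]; ring

theorem ei_sq (j : Fin m) : ei A j * ei A j = 0 := ExteriorAlgebra.ι_sq_zero _

theorem ei_comm (i j : Fin m) : ei A i * ei A j = -(ei A j * ei A i) :=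
  eq_neg_of_add_eq_zero_left (ExteriorAlgebra.ι_add_mul_swap _ _)

theorem ei_uu (j : Fin m) (F : Finset (Fin m)) :
    ei A j * uu A F = if j ∈ F then 0 else sg k j F • uu A (insert j F) := by
  induction F using Finset.induction_on_min with
  | empty => rw [if_neg (notMem_empty _), sg_min (by simp), one_smul, uu_min (by simp)]
  | insert f F hf ih =>
    have hf' : f ∉ F := fun h => lt_irrefl _ (hf f h)
    rcases lt_trichotomy j f with h | rfl | h
    · have h2 : ∀ x ∈ insert f F, j < x := fun x hx => by
        rcases mem_insert.mp hx with rfl | hx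
        exacts [h, h.trans (hf x hx)]
      rw [if_neg fun hj => lt_irrefl _ (h2 j hj), sg_min h2, one_smul, uu_min h2]
    · rw [if_pos (mem_insert_self _ _), uu_min hf, ← mul_assoc, ei_sq, zero_mul]
    · rw [uu_min hf, ← mul_assoc, ei_comm, neg_mul, mul_assoc, ih]
      by_cases hj : j ∈ F
      · simp [hj]
      · rw [if_neg hj, if_neg (by simp [hj, h.ne']), sg_ins h hf', mul_smul_comm, insert_comm,
          uu_min (j := f) (F := insert j F) (fun x hx => by
            rcases mem_insert.mp hx with rfl | hx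
            exacts [h, hf x hx]), neg_smul]

/-- shuffle sign -/
def sgn (F G : Finset (Fin m)) : ℤ := ∏ f ∈ F, (-1) ^ #{g ∈ G | g < f}

theorem uu_mul (F G : Finset (Fin m)) : uu A F * uu A G =
    if Disjoint F G then (sgn F G : k) • uu A (F ∪ G) else 0 := by
  induction F using Finset.induction_on_min with
  | empty => simp [uu_empty, sgn]
  | insert f F hf ih =>
    have hf' : f ∉ F := fun h => lt_irrefl _ (hf f h)
    rw [uu_min hf, mul_assoc, ih]
    by_cases h : Disjoint F G
    · rw [if_pos h, mul_smul_comm, ei_uu (k := k)]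
      by_cases h2 : f ∈ G
      · rw [if_pos (by simp [h2]), if_neg (by simp [h2]), smul_zero]
      · rw [if_neg (by simp [h2, hf']), if_pos (by simp [h2, h]), smul_smul, insert_union]
        congr 1
        have : {g ∈ F ∪ G | g < f} = {g ∈ G | g < f} := by
          rw [filter_union, filter_eq_empty_iff.mpr fun x hx => (hf x hx).not_gt, empty_union]
        rw [sgn, sgn, prod_insert hf', sg, this]
        push_cast; ring
    · rw [if_neg h, mul_zero, if_neg fun h2 => h (h2.mono_left (subset_insert _ _))]

theorem dK_smul (a : A) (y : Kos A m) : dK k x (a • y) = a • dK k x y :=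
  map_smul (CliffordAlgebra.contractLeft _) a y

theorem dK_ei (j : Fin m) (y : Kos A m) :
    dK k x (ei A j * y) = mo x (Pi.single j 1) • y - ei A j * dK k x y := by
  have := CliffordAlgebra.contractLeft_ι_mul (Q := 0) (d := Fintype.linearCombination A x)
    (Pi.basisFun A (Fin m) j) y
  rw [Pi.basisFun_apply, Fintype.linearCombination_apply_single, one_smul] at this
  rw [ei, Pi.basisFun_apply, mo_single]
  exact this

theorem dK_one : dK k x 1 = 0 := CliffordAlgebra.contractLeft_one _ _

theorem dK_uu (F : Finset (Fin m)) : dK k x (uu A F) =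
    ∑ j ∈ F, sg k j (F.erase j) • bb x (Pi.single j 1) (F.erase j) := by
  induction F using Finset.induction_on_min with
  | empty => rw [uu_empty, dK_one, sum_empty]
  | insert f F hf ih =>
    have hf' : f ∉ F := fun h => lt_irrefl _ (hf f h)
    rw [uu_min hf, dK_ei, ih, sum_insert hf', erase_insert hf', sg_min hf, one_smul, mul_sum,
      sub_eq_add_neg, ← sum_neg_distrib]
    congr 1
    refine sum_congr rfl fun j hj => ?_
    rw [erase_insert_of_ne (hf j hj).ne, sg_ins (hf j hj) (fun h => hf' (mem_of_mem_erase h)),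
      bb_eq, bb_eq, uu_min fun x hx => hf x (mem_of_mem_erase hx), mul_smul_comm, mul_smul_comm,
      neg_smul]

theorem dK_bb (α : Fin m → ℕ) (F : Finset (Fin m)) : dK k x (bb x α F) =
    ∑ j ∈ F, sg k j (F.erase j) • bb x (α + Pi.single j 1) (F.erase j) := by
  rw [bb_eq, dK_smul, dK_uu, Finset.smul_sum]
  refine sum_congr rfl fun j _ => ?_
  rw [smul_comm, bb_eq, bb_eq, smul_smul, mo_mul]

theorem bb_mul (α β : Fin m → ℕ) (F G : Finset (Fin m)) : bb x α F * bb x β G =
    if Disjoint F G then (sgn F G : k) • bb x (α + β) (F ∪ G) else 0 := by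
  rw [bb_eq, bb_eq, smul_mul_smul_comm, mo_mul, uu_mul (k := k), bb_eq]
  split_ifs
  · rw [smul_comm]
  · rw [smul_zero]

theorem leib_uu (F : Finset (Fin m)) (y : Kos A m) : dK k x (uu A F * y) =
    dK k x (uu A F) * y + (-1 : k) ^ #F • (uu A F * dK k x y) := by
  induction F using Finset.induction_on_min with
  | empty => simp [uu_empty, dK_one]
  | insert f F hf ih =>
    have hf' : f ∉ F := fun h => lt_irrefl _ (hf f h)
    rw [uu_min hf, mul_assoc, dK_ei, ih, dK_ei, card_insert_of_notMem hf', pow_succ]
    simp only [mul_add, sub_mul, smul_mul_assoc, mul_smul_comm, mul_assoc, mul_neg, mul_one,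
      neg_smul]
    abel

theorem leib {i j : ℕ} {z : Kos A m} (hx : z ∈ Cb k x i j) (y : Kos A m) :
    dK k x (z * y) = dK k x z * y + (-1 : k) ^ i • (z * dK k x y) := by
  induction hx using Submodule.span_induction with
  | mem z h =>
    obtain ⟨α, F, rfl, -, rfl⟩ := h
    rw [bb_eq, smul_mul_assoc, dK_smul, dK_smul, leib_uu, smul_add, smul_mul_assoc, smul_mul_assoc,
      smul_comm]
  | zero => simp
  | add z z' _ _ h h' => simp only [add_mul, map_add, h, h', smul_add]; abel
  | smul c z _ h =>
    simp only [smul_mul_assoc, map_smul, h, smul_add]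
    rw [smul_comm c ((-1 : k) ^ i)]

theorem bb_mem {α : Fin m → ℕ} {F : Finset (Fin m)} {i j : ℕ} (h1 : #F = i)
    (h2 : ∑ l, α l + i = j) : bb x α F ∈ Cb k x i j :=
  Submodule.subset_span ⟨α, F, h1, h2, rfl⟩

theorem Cb_mul {i j i' j' : ℕ} {z y : Kos A m} (hx : z ∈ Cb k x i j) (hy : y ∈ Cb k x i' j') :
    z * y ∈ Cb k x (i + i') (j + j') := by
  induction hx using Submodule.span_induction with
  | mem z h =>
    obtain ⟨α, F, rfl, rfl, rfl⟩ := h
    induction hy using Submodule.span_induction with
    | mem y h =>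
      obtain ⟨β, G, rfl, rfl, rfl⟩ := h
      rw [bb_mul (k := k)]
      split_ifs with h
      · exact Submodule.smul_mem _ _ (bb_mem (card_union_of_disjoint h) (by simp only [Pi.add_apply, sum_add_distrib]; ring))
      · exact zero_mem _
    | zero => simp
    | add y y' _ _ h h' => rw [mul_add]; exact add_mem h h'
    | smul c y _ h => rw [mul_smul_comm]; exact Submodule.smul_mem _ _ h
  | zero => simp
  | add z z' _ _ h h' => rw [add_mul]; exact add_mem h h'
  | smul c z _ h => rw [smul_mul_assoc]; exact Submodule.smul_mem _ _ h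

end Pool.Agent.H.MP_1dea36_gt
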