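import Pool.Agent.H.MP_1dea36_gt.D

namespace Pool.Agent.H.MP_1dea36_gt
open Finset

variable {k : Type} [Field k]

theorem exists_comp {V W W' : Type} [AddCommGroup V] [Module k V] [AddCommGroup W] [Module k W]
    [AddCommGroup W'] [Module k W'] (μ : V →ₗ[k] W) (Λ : V →ₗ[k] W')
    (h : LinearMap.ker μ ≤ LinearMap.ker Λ) : ∃ g : W →ₗ[k] W', ∀ v, g (μ v) = Λ v := by
  obtain ⟨g, hg⟩ := LinearMap.exists_extend
    ((LinearMap.ker μ).liftQ Λ h ∘ₗ μ.quotKerEquivRange.symm.toLinearMap)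
  refine ⟨g, fun v => ?_⟩
  have := LinearMap.congr_fun hg ⟨μ v, LinearMap.mem_range_self μ v⟩
  simpa using this

variable {T : Type} [Fintype T] [DecidableEq T] (deg : T → ℕ × ℕ) (du : T → T) (w : T → k) (s0 : T)
  {E : Type} [Ring E] [Algebra k E] (C : ℕ → ℕ → Submodule k E) (d : E →ₗ[k] E)

structure Cert (r : T → E) (ε : E →ₗ[k] k) : Prop where
  mul : ∀ {i j i' j' x y}, x ∈ C i j → y ∈ C i' j' → x * y ∈ C (i + i') (j + j')
  leib : ∀ {i j x}, x ∈ C i j → ∀ y, d (x * y) = d x * y + (-1 : k) ^ i • (x * d y)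
  mem : ∀ s, r s ∈ C (deg s).1 (deg s).2
  cyc : ∀ s, d (r s) = 0
  eps : ∀ {i j y}, y ∈ C i j → ε (d y) = 0
  pair : ∀ s t, ε (r s * r t) = if t = du s then w s else 0
  ker : ∀ i j, ∃ μ : E →ₗ[k] ({s // deg s = (i, j)} → k),
    ∀ y ∈ C i j, d y = 0 → μ y = 0 → ∃ W ∈ C (i + 1) j, d W = y
  one : r s0 = 1

variable {deg du w s0 C d} {r : T → E} {ε : E →ₗ[k] k}

def Lam (deg : T → ℕ × ℕ) (du : T → T) (C : ℕ → ℕ → Submodule k E) (d : E →ₗ[k] E) (r : T → E)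
    (ε : E →ₗ[k] k) (i j : ℕ) : Zc C d i j →ₗ[k] ({s // deg s = (i, j)} → k) :=
  LinearMap.pi fun s => ε ∘ₗ LinearMap.mulRight k (r (du s.1)) ∘ₗ (Zc C d i j).subtype

theorem Cert.rmem (h : Cert deg du w s0 C d r ε) {i j : ℕ} (c : {s // deg s = (i, j)} → k) :
    ∑ s, c s • r s.1 ∈ Zc C d i j :=
  Submodule.sum_mem _ fun s _ => Submodule.smul_mem _ _
    ⟨by have := h.mem s.1; rwa [s.2] at this, h.cyc _⟩

theorem Cert.lam_r (h : Cert deg du w s0 C d r ε) (hd : Function.Injective du) (hw : ∀ s, w s ≠ 0)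
    {i j : ℕ} (v : {s // deg s = (i, j)} → k) :
    Lam deg du C d r ε i j ⟨∑ s, (v s / w s.1) • r s.1, h.rmem _⟩ = v := by
  funext s
  show ε ((∑ t : {s // deg s = (i, j)}, (v t / w t.1) • r t.1) * r (du s.1)) = v s
  rw [sum_mul, map_sum, sum_eq_single s]
  · rw [smul_mul_assoc, map_smul, h.pair, if_pos rfl, smul_eq_mul, div_mul_cancel₀ _ (hw _)]
  · intro t _ ht
    rw [smul_mul_assoc, map_smul, h.pair, if_neg fun e => ht (Subtype.ext (hd e).symm), smul_zero]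
  · simp

theorem Cert.bd_mul (h : Cert deg du w s0 C d r ε) {i j i' j' : ℕ} {W y : E} (hW : W ∈ C i j)
    (hy : y ∈ C i' j') (h0 : d y = 0) : ε (d W * y) = 0 := by
  have := h.eps (h.mul hW hy)
  rwa [h.leib hW, h0, mul_zero, smul_zero, add_zero] at this

theorem Cert.ker_eq (h : Cert deg du w s0 C d r ε) (hd : Function.Injective du)
    (hw : ∀ s, w s ≠ 0) (i j : ℕ) : LinearMap.ker (Lam deg du C d r ε i j) = Bd C d i j := by
  have h1 : Bd C d i j ≤ LinearMap.ker (Lam deg du C d r ε i j) := by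
    rintro y ⟨W, hW, e⟩
    funext s
    show ε (y.1 * r (du s.1)) = 0
    rw [show y.1 = d W from e.symm]
    exact h.bd_mul hW (h.mem _) (h.cyc _)
  refine le_antisymm ?_ h1
  obtain ⟨μ, hμ⟩ := h.ker i j
  have h2 : LinearMap.ker (μ ∘ₗ (Zc C d i j).subtype) ≤ Bd C d i j := fun y hy =>
    hμ y.1 y.2.1 y.2.2 hy
  obtain ⟨g, hg⟩ := exists_comp _ _ (h2.trans h1)
  have hs : Function.Surjective g := fun v => ⟨_, (hg _).trans (h.lam_r hd hw v)⟩
  intro y hy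
  apply h2
  exact (LinearMap.injective_iff_surjective.mpr hs) ((hg y).trans (hy.trans (map_zero g).symm))

theorem Cert.dec (h : Cert deg du w s0 C d r ε) (hd : Function.Injective du)
    (hw : ∀ s, w s ≠ 0) {i j : ℕ} (x : Zc C d i j) : ∃ W ∈ C (i + 1) j,
      x.1 = ∑ s, (Lam deg du C d r ε i j x s / w s.1) • r s.1 + d W := by
  have : x - ⟨_, h.rmem fun s => Lam deg du C d r ε i j x s / w s.1⟩ ∈ Bd C d i j := by
    rw [← h.ker_eq hd hw, LinearMap.mem_ker, map_sub, h.lam_r hd hw, sub_self]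
  obtain ⟨W, hW, e⟩ := this
  exact ⟨W, hW, by rw [e]; simp⟩

theorem Cert.triple (h : Cert deg du w s0 C d r ε) (hd : Function.Injective du)
    (hw : ∀ s, w s ≠ 0) {i j i' j' : ℕ} (x : Zc C d i j) (y : Zc C d i' j') (u : T) :
    ε (x.1 * y.1 * r u) = ∑ s, ∑ t, (Lam deg du C d r ε i j x s / w s.1) *
      (Lam deg du C d r ε i' j' y t / w t.1) * ε (r s.1 * r t.1 * r u) := by
  obtain ⟨W, hW, e⟩ := h.dec hd hw x
  obtain ⟨W', hW', e'⟩ := h.dec hd hw y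
  generalize Lam deg du C d r ε i j x = c at *
  generalize Lam deg du C d r ε i' j' y = c' at *
  have hX := h.rmem fun s => c s / w s.1
  have h1 : ε (d W * (y.1 * r u)) = 0 := h.bd_mul hW (h.mul y.2.1 (h.mem u)) (by
    rw [h.leib y.2.1, h.cyc, show d y.1 = 0 from y.2.2]; simp)
  have h2 : ε ((∑ s, (c s / w s.1) • r s.1) * (d W' * r u)) = 0 := by
    have := h.eps (h.mul hX.1 (h.mul hW' (h.mem u)))
    rw [h.leib hX.1, show d (∑ s, (c s / w s.1) • r s.1) = 0 from hX.2, h.leib hW', h.cyc, mul_zero,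
      smul_zero, add_zero, zero_mul, zero_add, map_smul, smul_eq_zero] at this
    exact this.resolve_left (pow_ne_zero _ (neg_ne_zero.mpr one_ne_zero))
  rw [e, mul_assoc, add_mul, map_add, h1, add_zero]
  conv_lhs => rw [e']
  rw [add_mul, mul_add, map_add, h2, add_zero, sum_mul, sum_mul, map_sum]
  refine sum_congr rfl fun s _ => ?_
  rw [mul_sum, map_sum]
  refine sum_congr rfl fun t _ => ?_
  rw [smul_mul_assoc, smul_mul_assoc, mul_smul_comm, map_smul, map_smul, mul_assoc, mul_assoc]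
  rfl

theorem Cert.zmul (h : Cert deg du w s0 C d r ε) {i j i' j' : ℕ} {x y : E} (hx : x ∈ Zc C d i j)
    (hy : y ∈ Zc C d i' j') : x * y ∈ Zc C d (i + i') (j + j') :=
  ⟨h.mul hx.1 hy.1, show d (x * y) = 0 by
    rw [h.leib hx.1, show d x = 0 from hx.2, show d y = 0 from hy.2]; simp⟩

theorem Cert.zone (h : Cert deg du w s0 C d r ε) (h0 : deg s0 = (0, 0)) : (1 : E) ∈ Zc C d 0 0 := by
  have := h.mem s0
  rw [h0] at this
  exact h.one ▸ ⟨this, h.cyc _⟩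

theorem hiso {E' : Type} [Ring E'] [Algebra k E'] {C' : ℕ → ℕ → Submodule k E'}
    {d' : E' →ₗ[k] E'} {r' : T → E'} {ε' : E' →ₗ[k] k} (h : Cert deg du w s0 C d r ε)
    (h' : Cert deg du w s0 C' d' r' ε') (hd : Function.Injective du) (hw : ∀ s, w s ≠ 0)
    (h0 : deg s0 = (0, 0))
    (ht : ∀ s t u, deg s + deg t = deg u → s = s0 ∨ t = s0 ∨ du u = s0) : HIso C d C' d' := by
  let L : ∀ i j, Hm C d i j ≃ₗ[k] _ := fun i j =>
    (Submodule.quotEquivOfEq _ _ (h.ker_eq hd hw i j).symm).trans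
    ((Lam deg du C d r ε i j).quotKerEquivOfSurjective fun v => ⟨_, h.lam_r hd hw v⟩)
  let L' : ∀ i j, Hm C' d' i j ≃ₗ[k] _ := fun i j =>
    (Submodule.quotEquivOfEq _ _ (h'.ker_eq hd hw i j).symm).trans
    ((Lam deg du C' d' r' ε' i j).quotKerEquivOfSurjective fun v => ⟨_, h'.lam_r hd hw v⟩)
  have key : ∀ i j x x' (a : x ∈ Zc C d i j) (a' : x' ∈ Zc C' d' i j),
      ((L i j).trans (L' i j).symm) (cls C d a) = cls C' d' a'
      ↔ Lam deg du C d r ε i j ⟨x, a⟩ = Lam deg du C' d' r' ε' i j ⟨x', a'⟩ :=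
    fun i j x x' a a' => by
    rw [LinearEquiv.trans_apply, LinearEquiv.symm_apply_eq]
    rfl
  refine ⟨fun i j => (L i j).trans (L' i j).symm,
    ⟨h.zone h0, h'.zone h0, (key _ _ _ _ _ _).mpr ?_⟩,
    fun i j i' j' x y x' y' ⟨a, a', h1⟩ ⟨b, b', h2⟩ =>
      ⟨h.zmul a b, h'.zmul a' b', (key _ _ _ _ _ _).mpr ?_⟩⟩
  · funext s
    show ε (1 * r (du s.1)) = ε' (1 * r' (du s.1))
    rw [← h.one, ← h'.one, h.pair, h'.pair]
  · funext u
    refine (h.triple hd hw ⟨x, a⟩ ⟨y, b⟩ _).trans (Eq.trans ?_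
      (h'.triple hd hw ⟨x', a'⟩ ⟨y', b'⟩ _).symm)
    rw [(key _ _ _ _ _ _).mp h1, (key _ _ _ _ _ _).mp h2]
    refine sum_congr rfl fun s _ => sum_congr rfl fun t _ => ?_
    congr 1
    rcases ht s.1 t.1 u.1 (by rw [s.2, t.2, u.2]; rfl) with e | e | e
    · rw [e, h.one, h'.one, one_mul, one_mul, h.pair, h'.pair]
    · rw [e, h.one, h'.one, mul_one, mul_one, h.pair, h'.pair]
    · rw [e, h.one, h'.one, mul_one, mul_one, h.pair, h'.pair]

end Pool.Agent.H.MP_1dea36_gt
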