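import Pool.Agent.H.MP_1dea36_gt.A
import Pool.Agent.H.MP_1dea36_gt.C

namespace Pool.Agent.H.MP_1dea36_gt
open MvPolynomial Finset Pool.Agent.HShift

variable {m : ℕ} {k : Type} [Field k] {K : Finset (Fin m) → Prop}

def sp (α : Fin m → ℕ) : Finset (Fin m) := {j | α j ≠ 0}
def ch (F : Finset (Fin m)) (j : Fin m) : ℕ := if j ∈ F then 1 else 0

theorem sum_ch (F : Finset (Fin m)) : ∑ j, ch F j = #F := by simp [ch]

theorem sp_ch (F : Finset (Fin m)) : sp (ch F) = F := by ext j; simp [sp, ch]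

theorem ch_le {F J : Finset (Fin m)} : ch F ≤ ch J ↔ F ⊆ J := by
  refine ⟨fun h j hj => ?_, fun h j => ?_⟩
  · have := h j
    by_contra h2
    simp [ch, hj, h2] at this
  · by_cases hj : j ∈ F
    · simp [ch, hj, h hj]
    · simp [ch, hj]

theorem ch_sub (J F : Finset (Fin m)) : ch J - ch F = ch (J \ F) := by
  ext j; by_cases h : j ∈ J <;> by_cases h' : j ∈ F <;> simp [ch, h, h']

theorem mo_xs (α : Fin m → ℕ) : mo (xs k K) α =
    Ideal.Quotient.mk (SRI k K) (monomial (Finsupp.equivFunOnFinite.symm α) 1) := by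
  rw [monomial_eq, C_1, one_mul, Finsupp.prod_fintype _ _ (by simp), map_prod]
  simp only [map_pow]
  rfl

theorem mo_zero {α : Fin m → ℕ} (h : ¬ K (sp α)) : mo (xs k K) α = 0 := by
  have h1 : (∏ i ∈ sp α, xs k K i) = 0 := by
    have : (∏ i ∈ sp α, xs k K i) = Ideal.Quotient.mk (SRI k K) (∏ i ∈ sp α, X i) :=
      (map_prod (Ideal.Quotient.mk (SRI k K)) _ _).symm
    rw [this]
    exact Ideal.Quotient.eq_zero_iff_mem.mpr (Ideal.subset_span ⟨_, h, rfl⟩)
  refine zero_dvd_iff.mp (h1 ▸ ?_)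
  exact (prod_dvd_prod_of_dvd _ _ fun i hi => dvd_pow_self _ (by simpa [sp] using hi)).trans
    (prod_dvd_prod_of_subset _ _ _ (subset_univ _))

theorem exists_cf (hK : Down K) (α : Fin m → ℕ) (h : K (sp α)) :
    ∃ f : SR k K →ₗ[k] k, ∀ β, f (mo (xs k K) β) = if β = α then 1 else 0 := by
  have key : ∀ p ∈ SRI k K, ∀ γ : Fin m →₀ ℕ, K (sp γ) → coeff γ p = 0 := by
    intro p hp
    induction hp using Submodule.span_induction with
    | mem p h =>
      obtain ⟨σ, h1, rfl⟩ := h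
      intro γ hγ
      by_contra h2
      refine h1 (hK _ _ hγ fun i hi => ?_)
      have := X_dvd_iff_modMonomial_eq_zero.mp (dvd_prod_of_mem (fun i => (X i :
        MvPolynomial (Fin m) k)) hi)
      by_contra h3
      apply h2
      rw [← coeff_modMonomial_of_not_le _ (s := Finsupp.single i 1), this, coeff_zero]
      simpa [sp] using h3
    | zero => simp
    | add p q _ _ h h' => intro γ hγ; rw [coeff_add, h γ hγ, h' γ hγ, add_zero]
    | smul c p _ h =>
      intro γ hγ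
      rw [smul_eq_mul, coeff_mul]
      refine sum_eq_zero fun z hz => mul_eq_zero_of_right _ (h _ (hK _ _ hγ fun i hi => ?_))
      have := congrArg (· i) (mem_antidiagonal.mp hz)
      simp [sp] at hi this ⊢
      omega
  obtain ⟨g, hg⟩ := exists_comp (Ideal.Quotient.mkₐ k (SRI k K)).toLinearMap
    (lcoeff k (Finsupp.equivFunOnFinite.symm α)) fun p hp =>
      key p (Ideal.Quotient.eq_zero_iff_mem.mp hp) _ h
  refine ⟨g, fun β => ?_⟩
  rw [mo_xs]
  refine (hg _).trans ?_
  simp [coeff_monomial]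

def QQ (K : Finset (Fin m) → Prop) (a : Fin m → ℕ) (F : Finset (Fin m)) : Prop :=
  ch F ≤ a ∧ K (sp (a - ch F))

open Classical in
def IsCo (co : (Fin m → ℕ) → Kos (SR k K) m →ₗ[k] Finset (Fin m) → k) : Prop :=
  ∀ a α F G, co a (bb (xs k K) α F) G = if α + ch F = a ∧ K (sp α) ∧ F = G then 1 else 0

theorem exists_co (hK : Down K) :
    ∃ co : (Fin m → ℕ) → Kos (SR k K) m →ₗ[k] Finset (Fin m) → k, IsCo co := by
  classical
  choose! cf hcf using exists_cf (k := k) hK
  refine ⟨fun a => LinearMap.pi fun G => if QQ K a G then cf (a - ch G) ∘ₗ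
    (((Pi.basisFun (SR k K) (Fin m)).ExteriorAlgebra.coord G).restrictScalars k) else 0,
    fun a α F G => ?_⟩
  rw [LinearMap.pi_apply]
  by_cases h : QQ K a G
  · rw [if_pos h, LinearMap.comp_apply, LinearMap.restrictScalars_apply, bb_eq, map_smul, uu,
      Module.Basis.coord_apply, Module.Basis.repr_self, Finsupp.single_apply]
    by_cases h2 : F = G
    · subst h2
      rw [if_pos rfl, smul_eq_mul, mul_one, hcf _ h.2]
      refine if_congr ⟨?_, ?_⟩ rfl rfl
      · rintro rfl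
        exact ⟨tsub_add_cancel_of_le h.1, h.2, rfl⟩
      · rintro ⟨rfl, -⟩
        rw [add_tsub_cancel_right]
    · simp [h2]
  · rw [if_neg h, if_neg]
    · rfl
    · rintro ⟨rfl, h1, rfl⟩
      exact h ⟨le_add_self, by rwa [add_tsub_cancel_right]⟩

noncomputable def Psi (K : Finset (Fin m) → Prop) (a : Fin m → ℕ) :
    (Finset (Fin m) → k) →ₗ[k] Kos (SR k K) m :=
  Fintype.linearCombination k fun F => bb (xs k K) (a - ch F) F

theorem Psi_apply (a : Fin m → ℕ) (d : Finset (Fin m) → k) :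
    Psi K a d = ∑ F, d F • bb (xs k K) (a - ch F) F := Fintype.linearCombination_apply _ _ _

def Le (a : Fin m → ℕ) (d : Finset (Fin m) → k) : Prop := ∀ F, d F ≠ 0 → ch F ≤ a

theorem ch_down (a : Fin m → ℕ) : Down fun F => ch F ≤ a := fun _ _ h h' => (ch_le.mpr h').trans h

theorem Le.bd {a : Fin m → ℕ} {d : Finset (Fin m) → k} (h : Le a d) : Le a (bd d) := fun G hG => by
  obtain ⟨j, -, h1⟩ := exists_ne_zero_of_sum_ne_zero hG
  exact ch_down a _ _ (h _ (right_ne_zero_of_mul h1)) (subset_insert _ _)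

theorem dK_Psi {a : Fin m → ℕ} {d : Finset (Fin m) → k} (h : Le a d) :
    dK k (xs k K) (Psi K a d) = Psi K a (bd d) := by
  rw [Psi_apply, Psi_apply, map_sum]
  simp only [map_smul, dK_bb, bd, Finset.smul_sum, sum_smul]
  rw [sum_comm' (t' := univ) (s' := fun j => {F : Finset (Fin m) | j ∈ F}) (by simp),
    sum_comm' (t := fun G : Finset (Fin m) => Gᶜ) (t' := univ)
      (s' := fun j => {F : Finset (Fin m) | j ∉ F}) (by simp)]
  refine sum_congr rfl fun j _ => sum_bij' (fun F _ => F.erase j) (fun G _ => insert j G)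
    (by simp) (by simp) (fun F hF => insert_erase (by simpa using hF))
    (fun G hG => erase_insert (by simpa using hG)) fun F hF => ?_
  have hj : j ∈ F := by simpa using hF
  rw [insert_erase hj, smul_smul, mul_comm]
  by_cases h0 : d F = 0
  · simp [h0]
  congr 2
  ext v
  have := h F h0 v
  by_cases hv : v = j
  · subst hv; simp [ch, hj] at this ⊢; omega
  · simp [ch, hv]

theorem Psi_zero {a : Fin m → ℕ} {d : Finset (Fin m) → k} (h : Le a d)
    (h0 : ∀ F, QQ K a F → d F = 0) : Psi K a d = 0 := by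
  rw [Psi_apply]
  refine sum_eq_zero fun F _ => ?_
  by_cases h1 : d F = 0
  · rw [h1, zero_smul]
  · rw [bb_eq, mo_zero fun h2 => h1 (h0 F ⟨h F h1, h2⟩), zero_smul, smul_zero]

theorem Psi_mem {a : Fin m → ℕ} {d : Finset (Fin m) → k} {i j : ℕ}
    (h : Supp (fun F => ch F ≤ a) i d) (ha : ∑ l, a l = j) : Psi K a d ∈ Cb k (xs k K) i j := by
  rw [Psi_apply]
  refine Submodule.sum_mem _ fun F _ => ?_
  by_cases h1 : d F = 0
  · rw [h1, zero_smul]; exact zero_mem _
  · refine Submodule.smul_mem _ _ (bb_mem (h F h1).2 ?_)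
    rw [← ha, ← (h F h1).2, ← sum_ch, ← sum_add_distrib]
    exact sum_congr rfl fun l _ => tsub_add_cancel_of_le ((h F h1).1 l)

variable {co : (Fin m → ℕ) → Kos (SR k K) m →ₗ[k] Finset (Fin m) → k}

open Classical in
theorem co_Psi (hc : IsCo co) {a : Fin m → ℕ} {d : Finset (Fin m) → k} (h : Le a d)
    (a' : Fin m → ℕ) (G : Finset (Fin m)) :
    co a' (Psi K a d) G = if a = a' ∧ QQ K a G then d G else 0 := by
  rw [Psi_apply, map_sum, Finset.sum_apply, sum_eq_single G (fun F _ hF => by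
    simp [hc _ _ _ _, hF]) (by simp), map_smul, Pi.smul_apply, hc]
  by_cases h1 : d G = 0
  · simp [h1]
  · simp [tsub_add_cancel_of_le (h G h1), QQ, h G h1]

theorem co_supp (hc : IsCo co) {i j : ℕ} {y : Kos (SR k K) m} (hy : y ∈ Cb k (xs k K) i j)
    (a : Fin m → ℕ) : Supp (QQ K a) i (co a y) := by
  intro G
  contrapose!
  intro h
  induction hy using Submodule.span_induction with
  | mem y h' =>
    obtain ⟨α, F, rfl, -, rfl⟩ := h'
    rw [hc, if_neg]
    rintro ⟨rfl, h1, rfl⟩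
    exact h ⟨le_add_self, by rwa [add_tsub_cancel_right]⟩ rfl
  | zero => simp
  | add y y' _ _ h h' => simp [h, h']
  | smul c y _ h => simp [h]

theorem co_dec (hc : IsCo co) {i j : ℕ} {y : Kos (SR k K) m} (hy : y ∈ Cb k (xs k K) i j) :
    y = ∑ a ∈ piAntidiag univ j, Psi K a (co a y) := by
  induction hy using Submodule.span_induction with
  | mem y h' =>
    obtain ⟨α, F, rfl, rfl, rfl⟩ := h'
    rw [sum_eq_single (α + ch F) (fun a _ ha => by
      rw [show co a (bb (xs k K) α F) = 0 from funext fun G => by simp [hc _ _ _ _, ha.symm],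
        map_zero]) (by simp [sum_add_distrib, sum_ch]), Psi_apply,
      sum_eq_single F (fun G _ hG => by simp [hc _ _ _ _, hG.symm]) (by simp), hc,
      add_tsub_cancel_right]
    by_cases h : K (sp α)
    · simp [h]
    · rw [bb_eq, mo_zero h, zero_smul, smul_zero]
  | zero => simp
  | add y y' _ _ h h' => simp only [map_add, sum_add_distrib, ← h, ← h']
  | smul c y _ h => simp only [map_smul, ← Finset.smul_sum, ← h]

theorem co_cyc (hc : IsCo co) {i j : ℕ} {y : Kos (SR k K) m} (hy : y ∈ Cb k (xs k K) i j)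
    (h0 : dK k (xs k K) y = 0) {a : Fin m → ℕ} (ha : ∑ l, a l = j) (G : Finset (Fin m))
    (hG : QQ K a G) : bd (co a y) G = 0 := by
  classical
  have hl : ∀ a, Le a (co a y) := fun a F hF => (co_supp hc hy a F hF).1.1
  have h1 : co a (dK k (xs k K) y) G = 0 := by rw [h0, map_zero]; rfl
  conv_lhs at h1 => rw [co_dec hc hy]
  simp only [map_sum, dK_Psi (hl _), Finset.sum_apply, co_Psi hc (hl _).bd] at h1
  rw [sum_eq_single a (fun b _ hb => by simp [hb]) (by simp [ha]), if_pos ⟨rfl, hG⟩] at h1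
  exact h1

variable {rem : Finset (Fin m) → Finset (Fin m) → Prop} {F0 : Finset (Fin m)}

def DD (K : Finset (Fin m) → Prop) (rem : Finset (Fin m) → Finset (Fin m) → Prop)
    (F0 J F : Finset (Fin m)) : Prop :=
  (F ⊆ J ∧ ¬ K (J \ F) ∧ ¬ rem J F) ∨ (J = univ ∧ F = F0)

theorem loc (hv : ∀ J, J ≠ ∅ → ∀ t, Van k (DD K rem F0 J) t) {a : Fin m → ℕ} (ha : a ≠ 0) {i : ℕ}
    {d : Finset (Fin m) → k} (h1 : Supp (QQ K a) i d) (h2 : ∀ G, QQ K a G → bd d G = 0)
    (h3 : ∀ J F, a = ch J → rem J F → #F + 1 = i → bd d F = 0) :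
    ∃ (w : Finset (Fin m) → k) (t : k), Supp (fun F => ch F ≤ a) (i + 1) w ∧
      (∀ F, QQ K a F → d F = bd w F + if F = F0 then t else 0) ∧
      (t ≠ 0 → a = ch univ ∧ #F0 = i) := by
  classical
  by_cases h : ∃ v, 2 ≤ a v
  · obtain ⟨v, hv⟩ := h
    refine ⟨cone v d, 0, h1.cone fun F h4 h5 _ j => ?_, fun F hF => ?_, by simp⟩
    · have := h5.1 j
      by_cases hj : j = v
      · subst hj; simp [ch]; omega
      · simpa [ch, hj] using this
    · rw [bd_cone, ite_self, add_zero, Pi.sub_apply, cone]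
      split_ifs with h4
      · rw [h2 _ ⟨ch_down a _ _ hF.1 (erase_subset _ _), ?_⟩, mul_zero, sub_zero]
        convert hF.2 using 1
        ext j
        by_cases hj : j = v
        · subst hj; simp [sp, ch, h4]; omega
        · simp [sp, ch, hj]
      · rw [sub_zero]
  obtain ⟨J, rfl⟩ : ∃ J, a = ch J := ⟨sp a, funext fun j => by
    have : ¬ 2 ≤ a j := fun h' => h ⟨j, h'⟩
    simp only [ch, sp, mem_filter_univ]
    split_ifs <;> omega⟩
  have hJ : J ≠ ∅ := by rintro rfl; exact ha (funext fun j => by simp [ch])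
  have hQ : ∀ F, QQ K (ch J) F ↔ F ⊆ J ∧ K (J \ F) := fun F => by
    rw [QQ, ch_le, ch_sub, sp_ch]
  obtain ⟨e, e1, e2⟩ : ∃ e, Supp (DD K rem F0 J) i e ∧ bd e = bd d := by
    rcases i with _ | t
    · refine ⟨0, fun _ h => absurd rfl h, bd_zero.trans (funext fun G => (sum_eq_zero fun j _ =>
        mul_eq_zero_of_right _ (by_contra fun h4 => ?_)).symm)⟩
      simpa using (h1 _ h4).2
    · have s1 : Supp (fun F => ch F ≤ ch J) t (bd d) :=
        Supp.bd (ch_down _) fun F hF => ⟨(h1 F hF).1.1, (h1 F hF).2⟩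
      refine hv J hJ t _ (fun F hF => ⟨Or.inl ⟨ch_le.mp (s1 F hF).1, fun h4 => hF (h2 F ((hQ F).mpr
        ⟨ch_le.mp (s1 F hF).1, h4⟩)), fun h4 => hF (h3 J F rfl h4 (by rw [(s1 F hF).2]))⟩,
        (s1 F hF).2⟩) (bd_bd d)
  obtain ⟨v, hv'⟩ := nonempty_iff_ne_empty.mpr hJ
  obtain ⟨w, w1, w2⟩ := van_cone (K := k) (Δ := fun F => ch F ≤ ch J) (i := i) v
    (fun F _ hF => ch_le.mpr (insert_subset hv' (ch_le.mp hF))) (d - e)
    (Supp.sub (fun F hF => ⟨(h1 F hF).1.1, (h1 F hF).2⟩) fun F hF => ⟨ch_le.mpr (by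
      rcases (e1 F hF).1 with h4 | ⟨rfl, -⟩
      exacts [h4.1, subset_univ _]), (e1 F hF).2⟩) (by rw [bd_sub, e2, sub_self])
  have key : ∀ F, QQ K (ch J) F → e F ≠ 0 → J = univ ∧ F = F0 := fun F hF h4 =>
    (e1 F h4).1.resolve_left fun h5 => h5.2.1 ((hQ F).mp hF).2
  refine ⟨w, if QQ K (ch J) F0 then e F0 else 0, w1, fun F hF => ?_, fun ht => ?_⟩
  · rw [w2, Pi.sub_apply]
    by_cases h4 : F = F0
    · subst h4; rw [if_pos rfl, if_pos hF, sub_add_cancel]
    · rw [if_neg h4, not_not.mp fun h5 => h4 (key F hF h5).2, sub_zero, add_zero]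
  · by_cases h4 : QQ K (ch J) F0
    · rw [if_pos h4] at ht
      exact ⟨by rw [(key _ h4 ht).1], (e1 _ ht).2⟩
    · exact absurd (if_neg h4) ht

theorem bdry (hc : IsCo co) (hv : ∀ J, J ≠ ∅ → ∀ t, Van k (DD K rem F0 J) t) {i j : ℕ}
    {y : Kos (SR k K) m} (hy : y ∈ Cb k (xs k K) i j) (h0 : dK k (xs k K) y = 0)
    (h1 : ∀ J F, rem J F → #J = j → #F + 1 = i → bd (co (ch J) y) F = 0)
    (h2 : i = 0 → j = 0 → co 0 y ∅ = 0) :
    ∃ W ∈ Cb k (xs k K) (i + 1) j, ∃ t : k, y = dK k (xs k K) W + t • bb (xs k K) (ch F0ᶜ) F0 ∧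
      (t ≠ 0 → #F0 = i ∧ m = j) := by
  have key : ∀ a ∈ piAntidiag (univ : Finset (Fin m)) j, ∃ W ∈ Cb k (xs k K) (i + 1) j, ∃ t : k,
      Psi K a (co a y) = dK k (xs k K) W + t • bb (xs k K) (ch F0ᶜ) F0 ∧
      (t ≠ 0 → #F0 = i ∧ m = j) := by
    intro a ha
    have ha' : ∑ l, a l = j := (mem_piAntidiag.mp ha).1
    have hs := co_supp hc hy a
    by_cases hz : a = 0
    · subst hz
      refine ⟨0, zero_mem _, 0, ?_, by simp⟩
      have : co 0 y = 0 := funext fun F => by_contra fun h => by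
        have h3 : F = ∅ := subset_empty.mp (ch_le.mp (by
          refine (hs F h).1.1.trans_eq (funext fun j => by simp [ch])))
        subst h3
        exact h (h2 (by simpa using (hs _ h).2.symm) (by simpa using ha'.symm))
      simp [this]
    obtain ⟨w, t, w1, w2, w3⟩ := loc hv hz hs (co_cyc hc hy h0 ha') fun J F e h3 h4 => by
      subst e
      exact h1 J F h3 (by rw [← ha', sum_ch]) h4
    have wl : Le a w := fun F hF => (w1 F hF).1
    refine ⟨_, Psi_mem w1 ha', t, ?_, fun ht => ⟨(w3 ht).2, by rw [← ha', (w3 ht).1, sum_ch]; simp⟩⟩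
    have e : t • bb (xs k K) (ch F0ᶜ) F0 = Psi K a (Pi.single F0 t) := by
      rw [Psi, Fintype.linearCombination_apply_single]
      by_cases ht : t = 0
      · simp [ht]
      · rw [(w3 ht).1, ch_sub, compl_eq_univ_sdiff]
    rw [dK_Psi wl, e, ← map_add, ← sub_eq_zero, ← map_sub]
    refine Psi_zero (fun F hF => by_contra fun h3 => hF ?_) fun F hF => ?_
    · have a1 : co a y F = 0 := by_contra fun h => h3 (hs F h).1.1
      have a2 : bd w F = 0 := by_contra fun h => h3 (wl.bd F h)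
      have a3 : (Pi.single F0 t : Finset (Fin m) → k) F = 0 := by_contra fun h => h3 (by
        have ht : t ≠ 0 := by rintro rfl; simp at h
        rw [(w3 ht).1]; exact ch_le.mpr (subset_univ _))
      simp [a1, a2, a3]
    · rw [Pi.sub_apply, Pi.add_apply, w2 F hF, Pi.single_apply, sub_self]
  choose! W hW t h3 h4 using key
  refine ⟨∑ a ∈ piAntidiag univ j, W a, Submodule.sum_mem _ hW, ∑ a ∈ piAntidiag univ j, t a, ?_,
    fun h => ?_⟩
  · rw [map_sum, sum_smul, ← sum_add_distrib, ← sum_congr rfl h3]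
    exact co_dec hc hy
  · obtain ⟨a, ha, h5⟩ := exists_ne_zero_of_sum_ne_zero h
    exact h4 a ha h5

end Pool.Agent.H.MP_1dea36_gt
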