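import Mathlib

namespace Pool.Agent.H.MP_1dea36_gt
open MvPolynomial

section Poly
variable {m d : ℕ}

/-- `σ` is the vertex set of a proper face of the convex hull of the points `V i`. -/
def Face (V : Fin m → Fin d → ℝ) (σ : Finset (Fin m)) : Prop :=
  σ ≠ Finset.univ ∧ ∃ (a : Fin d → ℝ) (c : ℝ), (∀ i ∈ σ, a ⬝ᵥ V i = c) ∧ ∀ i ∉ σ, a ⬝ᵥ V i < c

/-- The `V i` are the vertices of a full-dimensional simplicial polytope. -/
def SimplicialPolytope (V : Fin m → Fin d → ℝ) : Prop :=
  affineSpan ℝ (Set.range V) = ⊤ ∧ (∀ i, Face V {i}) ∧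
    ∀ σ, Face V σ → AffineIndependent ℝ fun i : σ => V i

/-- Buchstaber invariant: largest rank of a torus acting freely on `Z_K` through `T^m`. -/
noncomputable def buch (K : Finset (Fin m) → Prop) : ℕ :=
  sSup {r | ∃ φ : (Fin r → Circle) →* (Fin m → Circle), Continuous φ ∧
    ∀ (t : Fin r → Circle) (z : Fin m → ℂ), (∃ σ, K σ ∧ ∀ i, ‖z i‖ ≤ 1 ∧ (i ∉ σ → ‖z i‖ = 1)) →
      (∀ i, (φ t i : ℂ) * z i = z i) → t = 1}

/-- Real Buchstaber invariant. -/
noncomputable def buchR (K : Finset (Fin m) → Prop) : ℕ :=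
  sSup {r | ∃ H : Submodule (ZMod 2) (Fin m → ZMod 2), Module.finrank (ZMod 2) H = r ∧
    ∀ h ∈ H, ∀ x : Fin m → ℝ, (∃ σ, K σ ∧ ∀ i, |x i| ≤ 1 ∧ (i ∉ σ → |x i| = 1)) →
      (∀ i, (-1) ^ (h i).val * x i = x i) → h = 0}

end Poly

section Hom
variable {k : Type} [Field k] {E : Type} [Ring E] [Algebra k E]
  (C : ℕ → ℕ → Submodule k E) (d : E →ₗ[k] E)

/-- Cycles of bidegree `(i, j)`. -/
def Zc (i j : ℕ) : Submodule k E := C i j ⊓ LinearMap.ker d

/-- Boundaries of bidegree `(i, j)`, inside the cycles. -/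
def Bd (i j : ℕ) : Submodule k (Zc C d i j) := ((C (i + 1) j).map d).submoduleOf (Zc C d i j)

/-- Homology of bidegree `(i, j)`. -/
def Hm (i j : ℕ) : Type := Zc C d i j ⧸ Bd C d i j

instance (i j : ℕ) : AddCommGroup (Hm C d i j) := Submodule.Quotient.addCommGroup _
instance (i j : ℕ) : Module k (Hm C d i j) := Submodule.Quotient.module _

/-- The class of a cycle. -/
def cls {i j : ℕ} {x : E} (h : x ∈ Zc C d i j) : Hm C d i j := Submodule.Quotient.mk ⟨x, h⟩

/-- Dimension of the homology of bidegree `(i, j)`. -/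
noncomputable def hrk (i j : ℕ) : ℕ := Module.finrank k (Hm C d i j)

variable {E' : Type} [Ring E'] [Algebra k E'] (C' : ℕ → ℕ → Submodule k E') (d' : E' →ₗ[k] E')

/-- `x`, `x'` are cycles of bidegree `(i, j)` and `φ` sends the class of `x` to that of `x'`. -/
def Rl {i j : ℕ} (φ : Hm C d i j ≃ₗ[k] Hm C' d' i j) (x : E) (x' : E') : Prop :=
  ∃ (h : x ∈ Zc C d i j) (h' : x' ∈ Zc C' d' i j), φ (cls C d h) = cls C' d' h'

/-- The bigraded homology algebras are isomorphic: degreewise linear isomorphisms that respect the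
unit and products. -/
def HIso : Prop :=
  ∃ φ : ∀ i j, Hm C d i j ≃ₗ[k] Hm C' d' i j, Rl C d C' d' (φ 0 0) 1 1 ∧
    ∀ i j i' j' x y x' y', Rl C d C' d' (φ i j) x x' → Rl C d C' d' (φ i' j') y y' →
      Rl C d C' d' (φ (i + i') (j + j')) (x * y) (x' * y')

end Hom

section Kos
variable {m : ℕ} (k : Type) [Field k] {A : Type} [CommRing A] [Algebra k A] (x : Fin m → A)

/-- Contraction of the exterior algebra with a linear form `f`: the antiderivation with
`m ↦ f m` on generators. -/
noncomputable def ctr {M : Type} [AddCommGroup M] [Module A M] (f : Module.Dual A M) :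
    Module.End A (ExteriorAlgebra A M) := CliffordAlgebra.contractLeft f

/-- An `A`-linear endomorphism seen as a `k`-linear one. -/
def rs {E : Type} [Ring E] [Algebra k E] [Algebra A E] [IsScalarTower k A E]
    (f : Module.End A E) : E →ₗ[k] E := f.restrictScalars k

/-- The linear form `u_i ↦ x_i`. -/
noncomputable def lf : Module.Dual A (Fin m → A) := Fintype.linearCombination A x

/-- Koszul differential on `Λ[u_1, …, u_m] ⊗ A`: the antiderivation with `u_i ↦ x_i`. -/
noncomputable def dK : Module.End k (ExteriorAlgebra A (Fin m → A)) := rs k (ctr (lf x))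

/-- The element `x^α u_F`. -/
noncomputable def bb (α : Fin m → ℕ) (F : Finset (Fin m)) : ExteriorAlgebra A (Fin m → A) :=
  (∏ i, x i ^ α i) • (Pi.basisFun A (Fin m)).ExteriorAlgebra F

/-- The part of bidegree `(-i, 2j)`. -/
noncomputable def Cb (i j : ℕ) : Submodule k (ExteriorAlgebra A (Fin m → A)) :=
  Submodule.span k {y | ∃ α F, F.card = i ∧ ∑ l, α l + i = j ∧ y = bb x α F}

/-- Dimension of the Koszul homology in bidegree `(-i, 2j)`. -/
noncomputable def kbetti (i j : ℕ) : ℕ := hrk (Cb k x) (dK k x) i j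

/-- The Koszul homology algebras are isomorphic as bigraded algebras. -/
def KIso {A' : Type} [CommRing A'] [Algebra k A'] (x' : Fin m → A') : Prop :=
  HIso (Cb k x) (dK k x) (Cb k x') (dK k x')

variable (K : Finset (Fin m) → Prop)

/-- Stanley-Reisner ideal. -/
noncomputable def SRI : Ideal (MvPolynomial (Fin m) k) := Ideal.span {p | ∃ σ, ¬ K σ ∧ p = ∏ i ∈ σ, X i}

/-- Stanley-Reisner ring. -/
def SR : Type := MvPolynomial (Fin m) k ⧸ SRI k K

noncomputable instance : CommRing (SR k K) := Ideal.Quotient.commRing _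
noncomputable instance : Algebra k (SR k K) := Ideal.Quotient.algebra k

/-- The classes of the variables. -/
noncomputable def xs (i : Fin m) : SR k K := Ideal.Quotient.mk (SRI k K) (X i)

end Kos

end Pool.Agent.H.MP_1dea36_gt
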