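import Pool.Agent.H.MP_1dea36_gt.B

namespace Pool.Agent.H.MP_1dea36_gt
open MvPolynomial Finset Pool.Agent.HShift

variable {m : ℕ} {k : Type} [Field k] {T : Type} [Fintype T] [DecidableEq T]

structure Chk (K : Finset (Fin m) → Prop) (deg : T → ℕ × ℕ) (du : T → T) (w : T → ℤ) (s0 s1 : T)
    (J Fr : T → Finset (Fin m)) (dd : T → Finset (Fin m) → ℤ) (o : Finset (Fin m) → ℤ)
    (F0 : Finset (Fin m)) : Prop where
  down : Down K
  o1 : ∀ F, o F ≠ 0 → K Fᶜ
  o2 : ∀ F : Finset (Fin m), ∑ j ∈ F, (-1) ^ #{g ∈ F.erase j | g < j} * o (F.erase j) = 0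
  o3 : o F0 = 1
  d1 : ∀ s F, dd s F ≠ 0 → F ⊆ J s ∧ #F = (deg s).1
  d2 : ∀ s, #(J s) = (deg s).2
  d3 : ∀ s, ∀ G ∈ (J s).powerset, K (J s \ G) →
    ∑ j ∈ Gᶜ, (-1) ^ #{g ∈ G | g < j} * dd s (insert j G) = 0
  d4 : ∀ s t, (if J t = (J s)ᶜ then ∑ F ∈ (J s).powerset, dd s F * ∑ G ∈ (J t).powerset,
    dd t G * (if Disjoint F G then sgn F G * o (F ∪ G) else 0) else 0) =
    if t = du s then w s else 0
  d5 : ∀ s, s ≠ s0 → s ≠ s1 → #(Fr s) + 1 = (deg s).1
  d6 : deg s0 = (0, 0) ∧ deg s1 = (#F0, m) ∧ J s0 = ∅ ∧ dd s0 ∅ = 1 ∧ s1 ≠ s0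

theorem ch_add {A B : Finset (Fin m)} : ch A + ch B = ch univ ↔ B = Aᶜ := by
  refine ⟨fun h => ?_, ?_⟩
  · ext j
    have := congrFun h j
    by_cases h1 : j ∈ A <;> by_cases h2 : j ∈ B <;> simp [ch, h1, h2] at this ⊢
  · rintro rfl
    ext j
    by_cases h1 : j ∈ A <;> simp [ch, h1]

theorem Chk.cert {K : Finset (Fin m) → Prop} {deg : T → ℕ × ℕ} {du : T → T} {w : T → ℤ} {s0 s1 : T}
    {J Fr : T → Finset (Fin m)} {dd : T → Finset (Fin m) → ℤ} {o : Finset (Fin m) → ℤ}
    {F0 : Finset (Fin m)} (h : Chk K deg du w s0 s1 J Fr dd o F0)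
    {rem : Finset (Fin m) → Finset (Fin m) → Prop}
    (hr : ∀ J' F, rem J' F → ∃ s, s ≠ s0 ∧ s ≠ s1 ∧ J s = J' ∧ Fr s = F)
    (hv : ∀ J', J' ≠ ∅ → ∀ t, Van k (DD K rem F0 J') t) :
    ∃ r ε, Cert deg du (fun s => (w s : k)) s0 (Cb k (xs k K)) (dK k (xs k K)) r ε := by
  classical
  obtain ⟨co, hc⟩ := exists_co (k := k) h.down
  obtain ⟨ε, hε⟩ : ∃ ε : Kos (SR k K) m →ₗ[k] k, ∀ α F,
      ε (bb (xs k K) α F) = if α + ch F = ch univ then (o F : k) else 0 := by
    refine ⟨∑ G, (o G : k) • (LinearMap.proj G ∘ₗ co (ch univ)), fun α F => ?_⟩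
    rw [LinearMap.sum_apply, sum_eq_single F (fun G _ hG => by simp [hc _ _ _ _, hG.symm])
      (by simp)]
    simp only [LinearMap.smul_apply, LinearMap.comp_apply, LinearMap.proj_apply, hc _ _ _ _]
    by_cases h1 : α + ch F = ch univ
    · by_cases h2 : o F = 0
      · simp [h2]
      · have : α = ch Fᶜ := add_right_cancel (h1.trans (by rw [add_comm, ch_add.mpr rfl]))
        simp [h1, this, sp_ch, h.o1 F h2, ch_add]
    · simp [h1]
  have e0 : ∀ {i j y}, y ∈ Cb k (xs k K) i j → ε (dK k (xs k K) y) = 0 := by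
    intro i j y hy
    induction hy using Submodule.span_induction with
    | mem y h' =>
      obtain ⟨α, F, -, -, rfl⟩ := h'
      rw [dK_bb, map_sum]
      have : ∀ j ∈ F, ε (sg k j (F.erase j) • bb (xs k K) (α + Pi.single j 1) (F.erase j)) =
          (if α + ch F = ch univ then 1 else 0) *
            (((-1) ^ #{g ∈ F.erase j | g < j} * o (F.erase j) : ℤ) : k) := fun j hj => by
        have e : α + Pi.single j 1 + ch (F.erase j) = α + ch F := by
          ext v
          by_cases hv : v = j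
          · subst hv; simp [ch, hj]
          · simp [ch, hv]
        rw [map_smul, hε, e, sg]
        split_ifs <;> simp
      rw [sum_congr rfl this, ← mul_sum, ← Int.cast_sum, h.o2, Int.cast_zero, mul_zero]
    | zero => simp
    | add y y' _ _ h h' => simp [h, h']
    | smul c y _ h => simp [h]
  have sd : ∀ s, Supp (fun F => ch F ≤ ch (J s)) (deg s).1 fun F => (dd s F : k) := fun s F hF => by
    have := h.d1 s F fun h0 => hF (by simp [h0])
    exact ⟨ch_le.mpr this.1, this.2⟩
  have sl : ∀ s, Le (ch (J s)) fun F => (dd s F : k) := fun s F hF => (sd s F hF).1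
  have ps : ∀ s, Psi K (ch (J s)) (fun F => (dd s F : k)) =
      ∑ F ∈ (J s).powerset, (dd s F : k) • bb (xs k K) (ch (J s) - ch F) F := fun s => by
    rw [Psi_apply]
    exact (sum_subset (subset_univ _) fun F _ hF => by
      rw [show (dd s F : k) = 0 from
        not_not.mp fun h0 => hF (mem_powerset.mpr (ch_le.mp (sl s F h0))), zero_smul]).symm
  refine ⟨fun s => Psi K (ch (J s)) fun F => (dd s F : k), ε, Cb_mul, leib,
    fun s => Psi_mem (sd s) (by rw [sum_ch, h.d2]), fun s => ?_, e0, fun s t => ?_, fun i j => ?_,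
    ?_⟩
  · rw [dK_Psi (sl s)]
    refine Psi_zero (sl s).bd fun G hG => ?_
    have := congrArg (Int.cast (R := k)) (h.d3 s G (mem_powerset.mpr (ch_le.mp hG.1))
      (by have := hG.2; rwa [ch_sub, sp_ch] at this))
    simpa [bd, sg] using this
  · have := congrArg (Int.cast (R := k)) (h.d4 s t)
    rw [apply_ite (Int.cast (R := k)) (t = du s), Int.cast_zero] at this
    rw [← this, ps, ps, sum_mul, map_sum]
    have e : ∀ F ∈ (J s).powerset, ε ((dd s F : k) • bb (xs k K) (ch (J s) - ch F) F *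
        ∑ G ∈ (J t).powerset, (dd t G : k) • bb (xs k K) (ch (J t) - ch G) G) =
        (if J t = (J s)ᶜ then 1 else 0) * ((dd s F * ∑ G ∈ (J t).powerset,
          dd t G * (if Disjoint F G then sgn F G * o (F ∪ G) else 0) : ℤ) : k) := fun F hF => by
      rw [smul_mul_assoc, map_smul, mul_sum, map_sum, Int.cast_mul, Int.cast_sum, mul_left_comm,
        smul_eq_mul, mul_sum (a := ite _ _ _)]
      congr 1
      refine sum_congr rfl fun G hG => ?_
      rw [mul_smul_comm, map_smul, bb_mul (k := k)]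
      by_cases h1 : Disjoint F G
      · have e : ch (J s) - ch F + (ch (J t) - ch G) + ch (F ∪ G) = ch (J s) + ch (J t) := by
          ext v
          have a1 := @mem_powerset.mp hF v
          have a2 := @mem_powerset.mp hG v
          have a3 := @disjoint_left.mp h1 v
          simp only [ch, Pi.add_apply, Pi.sub_apply, mem_union]
          grind
        rw [if_pos h1, if_pos h1, map_smul, hε, e]
        simp only [ch_add]
        split_ifs <;> simp
      · simp [h1]
    rw [sum_congr rfl e, ← mul_sum, ← Int.cast_sum]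
    split_ifs <;> simp
  · refine ⟨LinearMap.pi fun s => if s.1 = s0 then LinearMap.proj ∅ ∘ₗ co 0 else
      if s.1 = s1 then ε else LinearMap.proj (Fr s.1) ∘ₗ bdL ∘ₗ co (ch (J s.1)),
      fun y hy h0 hμ => ?_⟩
    obtain ⟨W, hW, t, h1, h2⟩ := bdry hc hv hy h0 (by
      intro J' F a0 a3 a4
      obtain ⟨s, a1, a2, rfl, rfl⟩ := hr _ _ a0
      have := congrFun hμ ⟨s, Prod.ext (by rw [← h.d5 s a1 a2, a4]) (by rw [← h.d2, a3])⟩
      rw [LinearMap.pi_apply, if_neg a1, if_neg a2] at this
      exact this) (by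
      rintro rfl rfl
      have := congrFun hμ ⟨s0, h.d6.1⟩
      rw [LinearMap.pi_apply, if_pos rfl] at this
      exact this)
    refine ⟨W, hW, ?_⟩
    by_cases ht : t = 0
    · rw [h1, ht, zero_smul, add_zero]
    · obtain ⟨rfl, rfl⟩ := h2 ht
      have := congrFun hμ ⟨s1, h.d6.2.1⟩
      rw [LinearMap.pi_apply, if_neg h.d6.2.2.2.2, if_pos rfl, h1, map_add, e0 hW, map_smul, hε,
        if_pos (by rw [add_comm, ch_add]), h.o3] at this
      simp [ht] at this
  · show Psi K (ch (J s0)) _ = 1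
    rw [ps, h.d6.2.2.1, powerset_empty, sum_singleton, h.d6.2.2.2.1, bb_eq, uu_empty, tsub_self]
    simp [mo]

/-- code of a subset -/
def code (F : Finset (Fin 8)) : ℕ := ∑ i ∈ F, 2 ^ i.val

def toF (n : ℕ) : Finset (Fin 8) := {i | n.testBit i.val}

def acy (M : Fin 8 → ℕ) : ℕ → ℕ → Bool
  | 0, _ => false
  | f + 1, D => D == 0 ||
    (List.finRange 8).any (fun v => D &&& M v == (D >>> 2 ^ v.val) &&& M v) ||
    (List.finRange 8).any fun v => (D >>> 2 ^ v.val) &&& M v != 0 &&
      acy M f ((D >>> 2 ^ v.val) &&& M v) && acy M f (D &&& M v)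

theorem code_ins : ∀ (v : Fin 8) (F : Finset (Fin 8)), v ∉ F →
    code (insert v F) = 2 ^ v.val + code F := fun v F h => by rw [code, sum_insert h, code]

theorem acy_van {M : Fin 8 → ℕ} (hM : ∀ v F, (M v).testBit (code F) = true ↔ v ∉ F) :
    ∀ (f D : ℕ), acy M f D = true → Down (fun F => D.testBit (code F) = true) →
      ∀ t, Van k (fun F => D.testBit (code F) = true) t
  | 0, _, h, _, _ => by simp [acy] at h
  | f + 1, D, h, hd, t => by
    have e1 : ∀ v, (fun F => (D &&& M v).testBit (code F) = true) =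
        fun F => D.testBit (code F) = true ∧ v ∉ F := fun v => funext fun F => by
      rw [Nat.testBit_and, Bool.and_eq_true, hM]
    have e2 : ∀ v : Fin 8, (fun F => ((D >>> 2 ^ v.val) &&& M v).testBit (code F) = true) =
        fun F => D.testBit (code (insert v F)) = true ∧ v ∉ F := fun v => funext fun F => by
      rw [Nat.testBit_and, Bool.and_eq_true, hM, Nat.testBit_shiftRight]
      exact propext (and_congr_left fun h => by rw [code_ins v F h])
    simp only [acy, Bool.or_eq_true, List.any_eq_true, Bool.and_eq_true, beq_iff_eq] at h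
    rcases h with (rfl | ⟨v, -, h⟩) | ⟨v, -, ⟨-, h1⟩, h2⟩
    · exact van_small fun F h => by simp at h
    · refine van_cone v fun F h1 h2 => ?_
      have := congrFun (e2 v) F
      rw [← h, congrFun (e1 v) F] at this
      exact (this.mp ⟨h2, h1⟩).1
    · refine van_ld hd v ?_ fun j _ => ?_
      · rw [← e1]
        refine acy_van hM f _ h2 ?_ t
        rw [e1]
        exact fun F G h3 h4 => ⟨hd _ _ h3.1 h4, fun h5 => h3.2 (h4 h5)⟩
      · rw [← e2]
        refine acy_van hM f _ h1 ?_ j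
        rw [e2]
        exact fun F G h3 h4 => ⟨hd _ _ h3.1 (insert_subset_insert _ h4), fun h5 => h3.2 (h4 h5)⟩

theorem code_lt : ∀ F, code F < 256 := by decide +kernel

theorem code_bit : ∀ (F : Finset (Fin 8)) (i : Fin 8), (code F).testBit i.val = true ↔ i ∈ F := by
  decide +kernel

theorem code_inj {F G : Finset (Fin 8)} (h : code F = code G) : F = G := by
  ext i; rw [← code_bit, ← code_bit, h]

theorem code_sub {F J : Finset (Fin 8)} : code F &&& code J = code F ↔ F ⊆ J := by
  refine ⟨fun h i hi => ?_, fun h => Nat.eq_of_testBit_eq fun i => ?_⟩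
  · rw [← code_bit, ← h, Nat.testBit_and, Bool.and_eq_true] at hi
    exact (code_bit _ _).mp hi.2
  · rw [Nat.testBit_and]
    by_cases h1 : (code F).testBit i = true
    · have h2 : i < 8 := by
        by_contra h2
        rw [Nat.testBit_lt_two_pow ((code_lt F).trans_le
          (Nat.pow_le_pow_right (n := 2) (i := 8) (by norm_num) (not_lt.mp h2)))] at h1
        exact absurd h1 (by simp)
      rw [h1, (code_bit J ⟨i, h2⟩).mpr (h ((code_bit F ⟨i, h2⟩).mp h1))]; rfl
    · simp [h1]

theorem code_sdiff {F J : Finset (Fin 8)} (h : F ⊆ J) : code (J \ F) = code J - code F := by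
  rw [code, code, code, ← sum_sdiff h, add_tsub_cancel_right]

def MM (v : Fin 8) : ℕ := ![38597363079105398474523661669562635951089994888546854679819194669304376546645,
  23158417847463239084714197001737581570653996933128112807891516801582625927987,
  6811299366900952671974763824040465167839410862684739061144563765171360567055,
  450552876409790643671482431940419874915447411150352389258589821042463539455,
  1766820105243087041267848467410591083712559083657179364930612997358944255,
  26959946660873538060741835960174461801791452538186943042387869433855,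
  6277101735386680763495507056286727952657427581105975853055,
  340282366920938463463374607431768211455] v

theorem MM_bit : ∀ (v : Fin 8), ∀ n < 256, (MM v).testBit n = !n.testBit v.val := by
  decide +kernel

theorem MM_spec (v : Fin 8) (F : Finset (Fin 8)) : (MM v).testBit (code F) = true ↔ v ∉ F := by
  rw [MM_bit _ _ (code_lt F), ← code_bit]; simp

def dn (D : ℕ) : Bool := (List.finRange 8).all fun v =>
  (D >>> 2 ^ v.val) &&& MM v &&& D == (D >>> 2 ^ v.val) &&& MM v

theorem dn_down {D : ℕ} (h : dn D = true) : Down fun F => D.testBit (code F) = true := by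
  have h1 : ∀ v F, v ∉ F → D.testBit (code (insert v F)) = true → D.testBit (code F) = true := by
    intro v F h2 h3
    have := congrArg (·.testBit (code F)) (beq_iff_eq.mp
      (List.all_eq_true.mp h v (List.mem_finRange v)))
    simp only [Nat.testBit_and, Nat.testBit_shiftRight, ← code_ins v F h2, h3,
      (MM_spec v F).mpr h2, Bool.true_and] at this
    exact this
  have h2 : ∀ S F, D.testBit (code (S ∪ F)) = true → D.testBit (code F) = true := by
    intro S F
    induction S using Finset.induction_on with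
    | empty => simp
    | insert v S _ ih =>
      rw [insert_union]
      by_cases h3 : v ∈ S ∪ F
      · rwa [insert_eq_of_mem h3]
      · exact fun h4 => ih (h1 _ _ h3 h4)
  exact fun F G h3 h4 => h2 G F (by rwa [union_eq_left.mpr h4])

def KK (B : ℕ) (F : Finset (Fin 8)) : Prop := B.testBit (code F) = true

instance (B : ℕ) : DecidablePred (KK B) := fun _ => inferInstanceAs (Decidable (_ = _))

def SB (j : ℕ) (L : List (Fin 8)) : ℕ :=
  L.foldr (fun v a => if j.testBit v.val then a else a &&& MM v) (2 ^ 256 - 1)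

theorem SB_bit (J F : Finset (Fin 8)) (L : List (Fin 8)) :
    (SB (code J) L).testBit (code F) = true ↔ ∀ v ∈ L, v ∈ F → v ∈ J := by
  induction L with
  | nil => rw [SB, List.foldr_nil, Nat.testBit_two_pow_sub_one]; simp [code_lt]
  | cons v L ih =>
    rw [SB, List.foldr_cons, ← SB, List.forall_mem_cons, ← ih]
    split_ifs with h
    · simp [(code_bit _ _).mp h]
    · rw [Nat.testBit_and, Bool.and_eq_true, MM_spec, and_comm]
      exact and_congr_left fun _ => ⟨fun h1 h2 => absurd h2 h1, fun h1 h2 =>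
        h ((code_bit _ _).mpr (h1 h2))⟩

def RM (j : ℕ) (L : List ℕ) : ℕ :=
  L.foldr (fun c a => if c / 256 = j then a ||| 2 ^ (c % 256) else a) 0

theorem RM_bit {j f : ℕ} (hf : f < 256) (L : List ℕ) :
    (RM j L).testBit f = true ↔ 256 * j + f ∈ L := by
  induction L with
  | nil => simp [RM]
  | cons c L ih =>
    rw [RM, List.foldr_cons, ← RM, List.mem_cons, ← ih]
    split_ifs with h
    · rw [Nat.testBit_or, Bool.or_eq_true, Nat.testBit_two_pow, decide_eq_true_eq, or_comm]
      exact or_congr_left (by omega)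
    · exact (or_iff_right (by omega)).symm

def DN (R : ℕ) (RL : List ℕ) (f0 j : ℕ) : ℕ :=
  (R >>> (255 - j) &&& SB j (List.finRange 8) &&& (RM j RL ^^^ (2 ^ 256 - 1))) |||
    if j = 255 then 2 ^ f0 else 0

theorem van_of_chk {B R f0 : ℕ} {RL : List ℕ} {F0 : Finset (Fin 8)} (h0 : code F0 = f0)
    (hR : ∀ x < 256, R.testBit x = !B.testBit (255 - x))
    (h : ∀ j < 256, j ≠ 0 → (dn (DN R RL f0 j) && acy MM 9 (DN R RL f0 j)) = true)
    (J : Finset (Fin 8)) (hJ : J ≠ ∅) (t : ℕ) :
    Van k (DD (KK B) (fun J F => 256 * code J + code F ∈ RL) F0 J) t := by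
  have h1 := h _ (code_lt J) fun h0 => hJ (code_inj h0)
  rw [Bool.and_eq_true] at h1
  convert acy_van MM_spec _ _ h1.2 (dn_down h1.1) t using 1
  funext F
  have l1 := code_lt F
  have l2 := code_lt J
  rw [DN, DD, KK, Nat.testBit_or, Nat.testBit_and, Nat.testBit_and, Nat.testBit_xor,
    Nat.testBit_two_pow_sub_one, Nat.testBit_shiftRight, Bool.or_eq_true, Bool.and_eq_true,
    Bool.and_eq_true, SB_bit, ← RM_bit l1]
  refine propext (or_congr ⟨fun ⟨a, b, c⟩ => ?_, fun ⟨⟨a, b⟩, c⟩ => ?_⟩ ?_)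
  · have l3 : code F ≤ code J := code_sub.mpr a ▸ Nat.and_le_right
    rw [hR _ (by omega), show 255 - (255 - code J + code F) = code J - code F by omega,
      ← code_sdiff a]
    exact ⟨⟨by simpa using b, fun v _ hv => a hv⟩, by simpa [l1] using c⟩
  · have a' : F ⊆ J := fun v hv => b v (List.mem_finRange v) hv
    have l3 : code F ≤ code J := code_sub.mpr a' ▸ Nat.and_le_right
    rw [hR _ (by omega), show 255 - (255 - code J + code F) = code J - code F by omega,
      ← code_sdiff a'] at a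
    exact ⟨a', by simpa using a, by simpa [l1] using c⟩
  · split_ifs with h2
    · rw [Nat.testBit_two_pow, decide_eq_true_eq, ← h0]
      exact ⟨fun e => by rw [e.2], fun e => ⟨code_inj h2, code_inj e.symm⟩⟩
    · simp only [Nat.zero_testBit, Bool.false_eq_true, iff_false, not_and]
      rintro rfl
      exact absurd rfl h2

theorem code_toF : ∀ n < 256, code (toF n) = n := by decide +kernel

def lk (L : List (ℤ × ℕ)) (n : ℕ) : ℤ := (L.map fun p => if p.2 = n then p.1 else 0).sum

def deg (s : Fin 64) : ℕ × ℕ := if s.val = 0 then (0, 0) else if s.val ≤ 16 then (1, 3) else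
  if s.val ≤ 46 then (2, 4) else if s.val ≤ 62 then (3, 5) else (4, 8)

def ww (s : Fin 64) : ℤ := if 47 ≤ s.val ∧ s.val ≤ 62 then -1 else 1

abbrev Tab := List (ℕ × ℕ × List (ℤ × ℕ))

def tJ (t : Tab) (s : Fin 64) : Finset (Fin 8) := toF (t.getD s.val (0, 0, [])).1
def tF (t : Tab) (s : Fin 64) : Finset (Fin 8) := toF (t.getD s.val (0, 0, [])).2.1
def tD (t : Tab) (s : Fin 64) (F : Finset (Fin 8)) : ℤ := lk (t.getD s.val (0, 0, [])).2.2 (code F)

theorem rem_of {t : Tab} {RL : List ℕ}
    (h : ∀ c ∈ RL, ∃ s : Fin 64, s ≠ 0 ∧ s ≠ 63 ∧ (t.getD s.val (0, 0, [])).1 = c / 256 ∧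
      (t.getD s.val (0, 0, [])).2.1 = c % 256)
    (J' F : Finset (Fin 8)) (h1 : 256 * code J' + code F ∈ RL) :
    ∃ s, s ≠ 0 ∧ s ≠ 63 ∧ tJ t s = J' ∧ tF t s = F := by
  obtain ⟨s, a, b, c, d⟩ := h _ h1
  have := code_lt J'; have := code_lt F
  exact ⟨s, a, b, code_inj (by rw [tJ, c, code_toF _ (by omega)]; omega),
    code_inj (by rw [tF, d, code_toF _ (by omega)]; omega)⟩

def sgN (j g : ℕ) : ℤ := if Nat.testBit 47758914269546354982683078068829456704164423862093743397580034411621752859030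
  (g % 2 ^ j) then -1 else 1

theorem sgN_eq : ∀ (j : Fin 8) (G : Finset (Fin 8)),
    (-1) ^ #{g ∈ G | g < j} = sgN j.val (code G) := by decide +kernel

theorem lk_ne {L : List (ℤ × ℕ)} {n : ℕ} (h : lk L n ≠ 0) : ∃ p ∈ L, p.2 = n := by
  by_contra h1
  refine h (List.sum_eq_zero fun x hx => ?_)
  obtain ⟨p, hp, rfl⟩ := List.mem_map.mp hx
  exact if_neg fun e => h1 ⟨p, hp, e⟩

theorem sum_lk (S : Finset (Finset (Fin 8))) (f : Finset (Fin 8) → ℤ) (L : List (ℤ × ℕ))
    (h : ∀ p ∈ L, p.2 < 256 ∧ toF p.2 ∈ S) :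
    ∑ F ∈ S, lk L (code F) * f F = (L.map fun p => p.1 * f (toF p.2)).sum := by
  induction L with
  | nil => simp [lk]
  | cons p L ih =>
    have h1 := h p List.mem_cons_self
    rw [List.map_cons, List.sum_cons, ← ih fun q hq => h q (List.mem_cons_of_mem _ hq)]
    simp only [lk, List.map_cons, List.sum_cons, add_mul, sum_add_distrib]
    congr 1
    rw [sum_eq_single_of_mem _ h1.2 fun F _ hF => by
      rw [if_neg fun e => hF (code_inj (by rw [code_toF _ h1.1, e])), zero_mul],
      if_pos (code_toF _ h1.1).symm]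

theorem chk_of {B : ℕ} {t : Tab} {o : Finset (Fin 8) → ℤ} {F0 : Finset (Fin 8)}
    (a0 : dn B = true) (a1 : ∀ F, o F ≠ 0 → KK B Fᶜ)
    (a2 : ∀ F : Finset (Fin 8), ∑ j ∈ F, sgN j.val (code (F.erase j)) * o (F.erase j) = 0)
    (a3 : o F0 = 1) (hl : t.length = 64)
    (c1 : ∀ s : Fin 64, (t.getD s.val (0, 0, [])).1 < 256 ∧ #(tJ t s) = (deg s).2 ∧
      (s ≠ 0 → s ≠ 63 → #(tF t s) + 1 = (deg s).1) ∧ ∀ p ∈ (t.getD s.val (0, 0, [])).2.2,
        p.2 < 256 ∧ toF p.2 ⊆ tJ t s ∧ #(toF p.2) = (deg s).1)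
    (c3 : ∀ e ∈ t, ∀ g < 256, g &&& e.1 = g → B.testBit (e.1 - g) = true →
      ∑ j : Fin 8, (if g.testBit j.val then 0 else sgN j.val g * lk e.2.2 (2 ^ j.val + g)) = 0)
    (c4 : ∀ s u : Fin 64, (if (t.getD u.val (0, 0, [])).1 = 255 - (t.getD s.val (0, 0, [])).1 then
      ((t.getD s.val (0, 0, [])).2.2.map fun p => p.1 * ((t.getD u.val (0, 0, [])).2.2.map fun q =>
        q.1 * (if Disjoint (toF p.2) (toF q.2) then sgn (toF p.2) (toF q.2) *
          o (toF p.2 ∪ toF q.2) else 0)).sum).sum else 0) = if u = s.rev then ww s else 0)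
    (d6 : #F0 = 4 ∧ tJ t 0 = ∅ ∧ tD t 0 ∅ = 1) :
    Chk (KK B) deg Fin.rev ww 0 63 (tJ t) (tF t) (tD t) o F0 where
  down := dn_down a0
  o1 := a1
  o2 := by simpa only [sgN_eq] using a2
  o3 := a3
  d1 := fun s F h => by
    obtain ⟨p, hp, e⟩ := lk_ne h
    have := (c1 s).2.2.2 p hp
    obtain rfl : toF p.2 = F := code_inj (by rw [code_toF _ this.1, e])
    exact this.2
  d2 := fun s => (c1 s).2.1
  d3 := fun s G hG hK => by
    have e : code (tJ t s) = (t.getD s.val (0, 0, [])).1 := code_toF _ (c1 s).1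
    have := c3 (t.getD s.val (0, 0, [])) (by
      rw [List.getD_eq_getElem _ _ (by rw [hl]; exact s.2)]; exact List.getElem_mem _) (code G)
      (code_lt G) (by rw [← e]; exact code_sub.mpr (mem_powerset.mp hG))
      (by rw [← e, ← code_sdiff (mem_powerset.mp hG)]; exact hK)
    rw [← this, ← sum_subset (subset_univ Gᶜ) fun j _ hj =>
      if_pos ((code_bit _ _).mpr (by simpa using hj))]
    refine sum_congr rfl fun j hj => ?_
    have hj' := mem_compl.mp hj
    rw [if_neg fun h => hj' ((code_bit _ _).mp h), sgN_eq, tD, code_ins j G hj']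
  d4 := fun s u => by
    rw [← c4 s u]
    refine if_congr ?_ ?_ rfl
    · have e := code_sdiff (subset_univ (tJ t s))
      rw [← compl_eq_univ_sdiff, tJ, code_toF _ (c1 s).1] at e
      refine ⟨fun h => ?_, fun h => code_inj ?_⟩
      · rw [← code_toF _ (c1 u).1, ← tJ, h, tJ, e]; rfl
      · rw [tJ, code_toF _ (c1 u).1, h, tJ, e]; rfl
    · simp only [tD]
      rw [sum_lk _ _ _ fun p hp => ⟨((c1 s).2.2.2 p hp).1, mem_powerset.mpr ((c1 s).2.2.2 p hp).2.1⟩]
      congr 2
      funext p
      rw [sum_lk _ _ _ fun p hp => ⟨((c1 u).2.2.2 p hp).1, mem_powerset.mpr ((c1 u).2.2.2 p hp).2.1⟩]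
  d5 := fun s => (c1 s).2.2.1
  d6 := ⟨rfl, by rw [d6.1]; rfl, d6.2.1, d6.2.2, by decide⟩

theorem deg_triple (s t u : Fin 64) (h : deg s + deg t = deg u) :
    s = 0 ∨ t = 0 ∨ Fin.rev u = 0 := by
  have h1 : ∀ s : Fin 64, s = 0 ∨ 3 ≤ (deg s).2 := by decide
  have h2 : ∀ u : Fin 64, 6 ≤ (deg u).2 → Fin.rev u = 0 := by decide
  have h3 : (deg s).2 + (deg t).2 = (deg u).2 := congrArg Prod.snd h
  rcases h1 s with h4 | h4
  · exact Or.inl h4
  rcases h1 t with h5 | h5
  · exact Or.inr (Or.inl h5)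
  exact Or.inr (Or.inr (h2 u (by omega)))

end Pool.Agent.H.MP_1dea36_gt
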