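import Pool.Agent.H.MP_1dea36_gt.E

namespace Pool.Agent.H.MP_1dea36_gt
open Finset Pool.Agent.HShift

def BA : ℕ := 7036554724191297652259404368114869950319677922010254912201349457198975

def tA : Tab := [(0, 0, [(1, 0)]),
  (7, 0, [(1, 1)]),
  (14, 0, [(1, 2)]),
  (44, 0, [(1, 4)]),
  (56, 0, [(1, 8)]),
  (67, 0, [(1, 1)]),
  (70, 0, [(1, 2)]),
  (81, 0, [(1, 1)]),
  (97, 0, [(1, 1)]),
  (100, 0, [(1, 4)]),
  (112, 0, [(1, 16)]),
  (131, 0, [(1, 1)]),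
  (138, 0, [(1, 2)]),
  (140, 0, [(1, 4)]),
  (145, 0, [(1, 1)]),
  (152, 0, [(1, 8)]),
  (176, 0, [(1, 16)]),
  (15, 1, [(-1, 9)]),
  (46, 2, [(-1, 34)]),
  (60, 4, [(-1, 20)]),
  (71, 1, [(-1, 65)]),
  (71, 4, [(1, 5), (-1, 65)]),
  (78, 8, [(1, 10), (-1, 66)]),
  (83, 2, [(1, 3), (-1, 17)]),
  (99, 2, [(1, 3), (-1, 33)]),
  (101, 1, [(-1, 5)]),
  (102, 2, [(-1, 34)]),
  (108, 8, [(1, 12), (-1, 68)]),
  (113, 1, [(-1, 33)]),
  (113, 16, [(1, 17), (-1, 33)]),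
  (116, 4, [(-1, 20)]),
  (120, 8, [(-1, 72)]),
  (135, 4, [(1, 5), (-1, 129)]),
  (139, 1, [(-1, 9)]),
  (142, 4, [(1, 6)]),
  (142, 2, [(-1, 6), (1, 130)]),
  (147, 2, [(1, 3), (-1, 17)]),
  (153, 1, [(-1, 9)]),
  (154, 2, [(1, 18)]),
  (156, 4, [(1, 20)]),
  (172, 32, [(-1, 36), (1, 132)]),
  (177, 1, [(-1, 33)]),
  (184, 32, [(-1, 40), (1, 136)]),
  (184, 8, [(1, 40)]),
  (195, 64, [(1, 65), (-1, 129)]),
  (209, 64, [(1, 65), (-1, 129)]),
  (240, 64, [(1, 80), (-1, 144)]),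
  (79, 9, [(-1, 73)]),
  (103, 3, [(-1, 7), (-1, 37)]),
  (110, 10, [(-1, 42), (-1, 98)]),
  (115, 18, [(1, 19), (-1, 35), (1, 49)]),
  (117, 5, [(-1, 21)]),
  (124, 12, [(-1, 28), (-1, 84)]),
  (143, 5, [(1, 13), (1, 137)]),
  (155, 3, [(1, 11), (1, 25)]),
  (158, 6, [(1, 22)]),
  (174, 34, [(1, 162)]),
  (185, 9, [(1, 41)]),
  (188, 36, [(-1, 52), (1, 148)]),
  (199, 68, [(-1, 69), (1, 133), (-1, 193)]),
  (211, 66, [(-1, 67), (1, 81), (1, 131), (-1, 145)]),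
  (241, 65, [(1, 97), (-1, 161)]),
  (248, 72, [(1, 200)]),
  (255, 0, [(1, 228)])]

def oA (F : Finset (Fin 8)) : ℤ := lk [(1, 228), (1, 212), (1, 204), (1, 226), (-1, 178), (1, 202), (-1, 90), (-1, 58), (-1, 86), (-1, 54), (1, 201), (-1, 105), (-1, 89), (1, 165), (1, 149), (-1, 45), (-1, 29), (1, 163), (-1, 43), (1, 23)] (code F)

def rA : List ℕ := [1792, 3584, 11264, 14336, 17152, 17920, 20736, 24832, 25600, 28672, 33536, 35328, 35840, 37120, 38912, 45056, 3841, 11778, 15364, 18177, 18180, 19976, 21250, 25346, 25857, 26114, 27656, 28929, 28944, 29700, 30728, 34564, 35585, 36356, 36354, 37634, 39169, 39426, 39940, 44064, 45313, 47136, 47112, 49984, 53568, 61504, 20233, 26371, 28170, 29458, 29957, 31756, 36613, 39683, 40454, 44578, 47369, 48164, 51012, 54082, 61761, 63560]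

theorem chkA : Chk (KK BA) deg Fin.rev ww 0 63 (tJ tA) (tF tA) (tD tA) oA (toF 228) :=
  chk_of (by decide +kernel) (by decide +kernel) (by decide +kernel) (by decide +kernel) rfl
    (by decide +kernel) (by decide +kernel) (by decide +kernel) (by decide +kernel)

theorem certA (k : Type) [Field k] : ∃ r ε, Cert deg Fin.rev (fun s => (ww s : k)) 0
    (Cb k (xs k (KK BA))) (dK k (xs k (KK BA))) r ε :=
  chkA.cert (rem_of (RL := rA) (by decide +kernel)) (van_of_chk (f0 := 228)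
    (R := 457620372515274475203010524536805447958871769225484684503076634268683730943)
    (by decide +kernel) (by decide +kernel) (by decide +kernel))

def BB : ℕ := 1766981866568632189560042996460348716233116461434268468446597555936509951

def tB : Tab := [(0, 0, [(1, 0)]),
  (14, 0, [(1, 2)]),
  (19, 0, [(1, 1)]),
  (26, 0, [(1, 2)]),
  (35, 0, [(1, 1)]),
  (38, 0, [(1, 2)]),
  (49, 0, [(1, 1)]),
  (50, 0, [(1, 2)]),
  (76, 0, [(1, 4)]),
  (81, 0, [(1, 1)]),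
  (88, 0, [(1, 8)]),
  (140, 0, [(1, 4)]),
  (161, 0, [(1, 1)]),
  (164, 0, [(1, 4)]),
  (193, 0, [(1, 1)]),
  (196, 0, [(1, 4)]),
  (200, 0, [(1, 8)]),
  (27, 1, [(-1, 9)]),
  (30, 4, [(1, 6), (-1, 18)]),
  (39, 1, [(-1, 5)]),
  (46, 8, [(1, 10), (-1, 34)]),
  (51, 1, [(-1, 33)]),
  (51, 2, [(1, 3), (-1, 33)]),
  (51, 16, [(1, 17), (-1, 33)]),
  (54, 4, [(1, 6), (-1, 18)]),
  (58, 8, [(1, 10), (-1, 34)]),
  (78, 2, [(-1, 66)]),
  (83, 2, [(1, 3), (-1, 65)]),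
  (89, 1, [(-1, 9)]),
  (90, 2, [(-1, 66)]),
  (92, 4, [(-1, 20)]),
  (113, 32, [(1, 33), (-1, 65)]),
  (142, 2, [(1, 130)]),
  (163, 2, [(1, 3), (-1, 129)]),
  (165, 1, [(-1, 5)]),
  (166, 2, [(1, 130)]),
  (172, 8, [(-1, 12), (1, 36)]),
  (177, 16, [(1, 17), (-1, 129)]),
  (197, 1, [(1, 5)]),
  (201, 1, [(-1, 9)]),
  (204, 64, [(-1, 132)]),
  (204, 8, [(-1, 68), (1, 132)]),
  (204, 4, [(1, 12)]),
  (209, 16, [(-1, 17), (1, 129)]),
  (216, 16, [(1, 24), (-1, 136)]),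
  (225, 32, [(1, 33), (-1, 65)]),
  (228, 32, [(-1, 36), (1, 68)]),
  (55, 5, [(-1, 21)]),
  (59, 9, [(1, 41)]),
  (62, 12, [(-1, 14), (-1, 26), (1, 38), (-1, 50)]),
  (91, 3, [(-1, 11), (-1, 73)]),
  (94, 6, [(-1, 70), (1, 82)]),
  (115, 34, [(1, 35), (-1, 67), (1, 97)]),
  (167, 3, [(1, 7), (1, 133)]),
  (174, 10, [(1, 138), (-1, 162)]),
  (179, 18, [(-1, 19), (1, 131), (-1, 145)]),
  (205, 5, [(1, 13)]),
  (206, 66, [(1, 194)]),
  (217, 17, [(1, 25), (-1, 137)]),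
  (220, 20, [(1, 148)]),
  (229, 33, [(-1, 37), (1, 69)]),
  (236, 40, [(-1, 44), (1, 76), (-1, 100)]),
  (241, 48, [(1, 49), (-1, 81), (1, 161), (-1, 193)]),
  (255, 0, [(1, 184)])]

def oB (F : Finset (Fin 8)) : ℤ := lk [(1, 184), (1, 120), (1, 180), (1, 116), (-1, 226), (-1, 210), (-1, 106), (1, 154), (-1, 102), (1, 150), (-1, 169), (-1, 105), (1, 149), (1, 85), (-1, 45), (-1, 29), (1, 195), (1, 139), (-1, 71), (-1, 15)] (code F)

def rB : List ℕ := [3584, 4864, 6656, 8960, 9728, 12544, 12800, 19456, 20736, 22528, 35840, 41216, 41984, 49408, 50176, 51200, 6913, 7684, 9985, 11784, 13057, 13058, 13072, 13828, 14856, 19970, 21250, 22785, 23042, 23556, 28960, 36354, 41730, 42241, 42498, 44040, 45328, 50433, 51457, 52288, 52232, 52228, 53520, 55312, 57632, 58400, 14085, 15113, 15884, 23299, 24070, 29474, 42755, 44554, 45842, 52485, 52802, 55569, 56340, 58657, 60456, 61744]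

theorem chkB : Chk (KK BB) deg Fin.rev ww 0 63 (tJ tB) (tF tB) (tD tB) oB (toF 184) :=
  chk_of (by decide +kernel) (by decide +kernel) (by decide +kernel) (by decide +kernel) rfl
    (by decide +kernel) (by decide +kernel) (by decide +kernel) (by decide +kernel)

theorem certB (k : Type) [Field k] : ∃ r ε, Cert deg Fin.rev (fun s => (ww s : k)) 0
    (Cb k (xs k (KK BB))) (dK k (xs k (KK BB))) r ε :=
  chkB.cert (rem_of (RL := rB) (by decide +kernel)) (van_of_chk (f0 := 184)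
    (R := 5419247848452278209470307825416134049524348377951954370816278042651885567)
    (by decide +kernel) (by decide +kernel) (by decide +kernel))

theorem isoAB (k : Type) [Field k] : HIso (Cb k (xs k (KK BA))) (dK k (xs k (KK BA)))
    (Cb k (xs k (KK BB))) (dK k (xs k (KK BB))) := by
  obtain ⟨r, ε, h⟩ := certA k
  obtain ⟨r', ε', h'⟩ := certB k
  refine hiso h h' Fin.rev_injective (fun s => ?_) rfl deg_triple
  unfold ww
  split_ifs <;> simp

end Pool.Agent.H.MP_1dea36_gt
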