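import Pool.Agent.H.MP_1dea36_gt.F

namespace Pool.Agent.H.MP_1dea36_gt
open Finset Pool.Agent.HShift

def GG (V : Fin 8 → Fin 4 → ℝ) (σ : Finset (Fin 8)) : Prop :=
  ∃ (a : Fin 4 → ℝ) (c : ℝ), (∀ i ∈ σ, a ⬝ᵥ V i = c) ∧ ∀ i ∉ σ, a ⬝ᵥ V i < c

theorem GG.inter {V : Fin 8 → Fin 4 → ℝ} {σ τ : Finset (Fin 8)} (h : GG V σ) (h' : GG V τ) :
    GG V (σ ∩ τ) := by
  obtain ⟨a, c, h1, h2⟩ := h
  obtain ⟨a', c', h3, h4⟩ := h'
  refine ⟨a + a', c + c', fun i hi => by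
    rw [add_dotProduct, h1 i (mem_inter.mp hi).1, h3 i (mem_inter.mp hi).2], fun i hi => ?_⟩
  rw [add_dotProduct]
  by_cases h5 : i ∈ σ <;> by_cases h6 : i ∈ τ
  · exact absurd (mem_inter.mpr ⟨h5, h6⟩) hi
  · linarith [h1 i h5, h4 i h6]
  · linarith [h2 i h5, h3 i h6]
  · linarith [h2 i h5, h4 i h6]

def cV (V : Fin 8 → Fin 4 → ℤ) : Fin 8 → Fin 4 → ℝ := fun i j => V i j

theorem cast_dot (a : Fin 4 → ℤ) (V : Fin 8 → Fin 4 → ℤ) (i : Fin 8) :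
    (fun j => (a j : ℝ)) ⬝ᵥ cV V i = ((∑ j, a j * V i j : ℤ) : ℝ) := by
  simp [dotProduct, cV]

theorem toF_code (F : Finset (Fin 8)) : toF (code F) = F := by
  ext i; simp [toF, code_bit]

theorem face_eq {V : Fin 8 → Fin 4 → ℤ} {B : ℕ} (fn : List (ℕ × (Fin 4 → ℤ) × ℤ))
    (rad : List (Fin 8 → ℤ))
    (h1 : ∀ p ∈ fn, ∀ i : Fin 8, if p.1.testBit i.val then ∑ j, p.2.1 j * V i j = p.2.2
      else ∑ j, p.2.1 j * V i j < p.2.2)
    (h2 : ∀ n < 256, B.testBit n = true → n ≠ 255 ∧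
      fn.foldr (fun p a => if n &&& p.1 = n then a &&& p.1 else a) 255 = n)
    (h3 : ∀ l ∈ rad, ∑ i, l i = 0 ∧ ∀ j, ∑ i, l i * V i j = 0)
    (h4 : ∀ n < 255, B.testBit n = false → ∃ l ∈ rad, (∀ i : Fin 8, n.testBit i.val = false →
      0 ≤ l i) ∧ ∃ i : Fin 8, n.testBit i.val = false ∧ 0 < l i) : Face (cV V) = KK B := by
  funext σ
  refine propext ⟨fun ⟨a0, a, c, a1, a2⟩ => by_contra fun h => ?_, fun h => ?_⟩
  · have l1 := code_lt σ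
    have l2 : code σ ≠ 255 := fun e => a0 (code_inj e)
    obtain ⟨l, hl, b1, i, b2, b3⟩ := h4 (code σ) (by omega) (by simpa [KK] using h)
    simp only [← Bool.not_eq_true, code_bit] at b1 b2
    have e : ∑ i, (l i : ℝ) * (a ⬝ᵥ cV V i - c) = 0 := by
      have e1 : ∑ i, (l i : ℝ) = 0 := by exact_mod_cast (h3 l hl).1
      have e2 : ∀ j, ∑ i, (l i : ℝ) * V i j = 0 := fun j => by exact_mod_cast (h3 l hl).2 j
      simp only [mul_sub, sum_sub_distrib, ← sum_mul, e1, dotProduct, cV, mul_sum]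
      rw [sum_comm]
      simp only [mul_left_comm _ (a _), ← mul_sum, e2]
      simp
    refine absurd e (ne_of_lt ((sum_lt_sum (g := fun _ => 0) (fun j _ => ?_)
      ⟨i, mem_univ _, ?_⟩).trans_eq (by simp)))
    · by_cases hj : j ∈ σ
      · rw [a1 j hj, sub_self, mul_zero]
      · exact mul_nonpos_of_nonneg_of_nonpos (by exact_mod_cast b1 j hj) (by linarith [a2 j hj])
    · exact mul_neg_of_pos_of_neg (by exact_mod_cast b3) (by linarith [a2 i b2])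
  · obtain ⟨b1, b2⟩ := h2 _ (code_lt σ) h
    refine ⟨fun e => b1 (by rw [e]; rfl), ?_⟩
    show GG (cV V) σ
    rw [← toF_code σ, ← b2]
    clear b2 h2
    induction fn with
    | nil => exact ⟨0, 0, by simp, fun i hi => absurd ((by decide : ∀ i, i ∈ toF 255) i) hi⟩
    | cons p fn ih =>
      have := ih fun q hq => h1 q (List.mem_cons_of_mem _ hq)
      rw [List.foldr_cons]
      split_ifs
      · have e : ∀ a b, toF (a &&& b) = toF a ∩ toF b := fun a b => by ext i; simp [toF]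
        rw [e]
        refine this.inter ⟨fun j => p.2.1 j, p.2.2, fun i hi => ?_, fun i hi => ?_⟩
        · have := h1 p List.mem_cons_self i
          rw [if_pos (by simpa [toF] using hi)] at this
          rw [cast_dot, this]
        · have := h1 p List.mem_cons_self i
          rw [if_neg (by simpa [toF] using hi)] at this
          rw [cast_dot]; exact_mod_cast this
      · exact this

theorem aff_of {V : Fin 8 → Fin 4 → ℝ} {σ : Finset (Fin 8)}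
    (h : ∀ i ∈ σ, ∃ (a : Fin 4 → ℝ) (c : ℝ), (∀ j ∈ σ, j ≠ i → a ⬝ᵥ V j = c) ∧ a ⬝ᵥ V i ≠ c) :
    AffineIndependent ℝ fun i : σ => V i := by
  rw [affineIndependent_iff]
  intro s w h1 h2 i hi
  obtain ⟨a, c, h3, h4⟩ := h i i.2
  have e : ∑ j ∈ s, w j * (a ⬝ᵥ V j - c) = 0 := by
    have := congrArg (a ⬝ᵥ ·) h2
    simp only [dotProduct_sum, dotProduct_smul, smul_eq_mul, dotProduct_zero] at this
    simp only [mul_sub, sum_sub_distrib, ← sum_mul, h1, this, zero_mul, sub_zero]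
  rw [sum_eq_single_of_mem i hi fun j _ hj => by
    rw [h3 j j.2 fun e => hj (Subtype.ext e), sub_self, mul_zero]] at e
  exact (mul_eq_zero.mp e).resolve_right (sub_ne_zero.mpr h4)

theorem poly_of {V : Fin 8 → Fin 4 → ℤ} {B : ℕ} (h : Face (cV V) = KK B) (hd : Down (KK B))
    (h1 : ∀ i, KK B {i}) (f : Fin 8 → (Fin 4 → ℤ) × ℤ)
    (h2 : ∀ i ∈ toF 31, (∀ j ∈ toF 31, j ≠ i → ∑ l, (f i).1 l * V j l = (f i).2) ∧
      ∑ l, (f i).1 l * V i l ≠ (f i).2) : SimplicialPolytope (cV V) := by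
  refine ⟨?_, by rwa [h], fun σ hσ => aff_of fun i hi => ?_⟩
  · have := aff_of (V := cV V) (σ := toF 31) fun i hi => ⟨fun l => (f i).1 l, (f i).2,
      fun j hj hij => by rw [cast_dot, (h2 i hi).1 j hj hij],
      by rw [cast_dot]; exact_mod_cast (h2 i hi).2⟩
    have h3 := this.affineSpan_eq_top_iff_card_eq_finrank_add_one.mpr (by
      rw [Fintype.card_coe]; simp; decide)
    rw [eq_top_iff, ← h3]
    exact affineSpan_mono _ (by rintro _ ⟨i, rfl⟩; exact ⟨i, rfl⟩)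
  · have : Face (cV V) (σ.erase i) := by
      rw [h] at hσ ⊢; exact hd _ _ hσ (erase_subset _ _)
    obtain ⟨-, a, c, h3, h4⟩ := this
    exact ⟨a, c, fun j hj hij => h3 j (mem_erase.mpr ⟨hij, hj⟩), (h4 i (notMem_erase _ _)).ne⟩

def VA : Fin 8 → Fin 4 → ℤ := ![![0, -3, 1, -1], ![-3, -1, -1, 2], ![3, -3, -1, 3], ![-2, -2, 3, -1], ![-3, -2, 1, 3], ![0, -2, -2, -1], ![-2, 3, 3, 3], ![3, 3, -3, 3]]

theorem faceA : Face (cV VA) = KK BA := face_eq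
  [(27, ![-18, -22, -7, -8], 67),
   (43, ![-15, -18, -6, -7], 55),
   (51, ![-7, -9, -3, -3], 27),
   (29, ![0, -4, 2, 1], 13),
   (77, ![16, 4, 14, -5], 7),
   (53, ![-20, -72, -24, 3], 189),
   (165, ![4, 0, 0, -3], 3),
   (197, ![18, 5, 15, -6], 6),
   (169, ![20, 24, 8, -43], -21),
   (201, ![12, 4, 10, -5], 3),
   (54, ![-13, -36, -21, 6], 108),
   (150, ![-7, -6, -18, 30], 105),
   (166, ![-10, -21, -63, 18], 150),
   (90, ![-58, 8, 9, -10], 137),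
   (106, ![-55, 52, -22, -65], 5),
   (210, ![-30, 16, -25, 66], 231),
   (226, ![-66, 91, -55, -78], 6),
   (92, ![16, -28, 62, 35], 175),
   (212, ![0, 0, 0, 1], 3),
   (232, ![0, 4, 0, -5], -3)]
  [![-79, -80, -1, 27, 61, 72, 0, 0],
   ![79, 80, 1, -27, -61, -72, 0, 0],
   ![367, 4, -63, -368, 0, 0, 143, -83],
   ![-73, 0, 13, 73, -1, 0, -28, 16],
   ![41, 20, -16, 0, 0, -46, -21, 22],
   ![-590, -128, 157, 336, 0, 286, 0, -61],
   ![58, 128, 25, 0, -112, -90, 0, -9],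
   ![187, -64, -71, -171, 83, 0, 36, 0],
   ![143, -52, 0, -256, 0, 126, 157, -118],
   ![-143, 52, 0, 256, 0, -126, -157, 118],
   ![73, -292, -185, 0, 368, 0, -135, 171],
   ![-163, 112, 95, 135, -143, 0, 0, -36],
   ![-499, -76, 118, 352, 0, 166, -61, 0],
   ![499, 76, -118, -352, 0, -166, 61, 0],
   ![235, 428, 58, 0, -352, -342, -27, 0],
   ![172, 52, 0, -185, -63, 0, 95, -71]]
  (by decide +kernel) (by decide +kernel) (by decide +kernel) (by decide +kernel)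

theorem polyA : SimplicialPolytope (cV VA) := poly_of faceA chkA.down (by decide +kernel)
  ![(![-18, -62, -23, -16], 107), (![0, -4, 2, 1], 13), (![18, 22, 7, 8], -67), (![-2, -6, -3, 0], 15), (![-18, -46, 5, 16], 127), (![0, 0, 0, 0], 0), (![0, 0, 0, 0], 0), (![0, 0, 0, 0], 0)]
  (by decide +kernel)

def VB : Fin 8 → Fin 4 → ℤ := ![![0, 2, 1, -3], ![0, 3, 2, 3], ![-3, -2, 0, -3], ![2, 2, -1, 2], ![-2, 0, -1, 2], ![2, 0, -2, 3], ![0, -3, 3, 2], ![-1, 3, 0, 3]]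

theorem faceB : Face (cV VB) = KK BB := face_eq
  [(71, ![-3, 1, 5, -1], 10),
   (135, ![-16, 10, 8, -3], 37),
   (75, ![15, 2, 10, -2], 20),
   (139, ![10, 41, -5, -6], 95),
   (29, ![-5, 10, -25, -8], 19),
   (45, ![-2, 7, -22, -8], 16),
   (149, ![-11, 14, -23, -8], 29),
   (101, ![128, -91, -20, -83], 47),
   (153, ![-7, 14, -27, -8], 25),
   (105, ![55, -14, 10, -18], 36),
   (86, ![-100, 4, 53, 29], 205),
   (150, ![-26, 2, 13, 7], 53),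
   (106, ![2, 0, 1, 1], 5),
   (170, ![6, 8, -3, 13], 57),
   (210, ![-2, 0, 1, 1], 5),
   (226, ![-6, -8, 3, 51], 135),
   (60, ![-4, 8, -23, -7], 17),
   (116, ![-20, -84, -53, 27], 147),
   (184, ![-2, 4, -9, -1], 11),
   (240, ![-18, -16, -3, 69], 177)]
  [![-40, 2, 32, 69, -21, -42, 0, 0],
   ![40, -2, -32, -69, 21, 42, 0, 0],
   ![-34, 68, 35, 21, 0, 0, -27, -63],
   ![298, 0, -419, 0, 697, -156, 29, -449],
   ![104, 0, 0, -419, -187, 328, -18, 192],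
   ![-100, -16, 122, 57, -189, 0, 0, 126],
   ![-32, -17, 16, 87, 0, -63, 9, 0],
   ![24, -419, 0, 0, -301, -21, 157, 560],
   ![100, 16, -122, -57, 189, 0, 0, -126],
   ![32, 17, -16, -87, 0, 63, -9, 0],
   ![2, 52, -7, 0, 49, 0, -19, -77],
   ![64, 187, 0, -301, 0, 245, -83, -112],
   ![-56, 40, 64, 33, -63, 0, -18, 0],
   ![-130, 17, 83, 282, 0, -189, 0, -63],
   ![424, -449, -560, 0, 609, -231, 207, 0],
   ![40, -18, 0, -157, -83, 122, 0, 96]]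
  (by decide +kernel) (by decide +kernel) (by decide +kernel) (by decide +kernel)

theorem polyB : SimplicialPolytope (cV VB) := poly_of faceB chkB.down (by decide +kernel)
  ![(![16, -32, 17, 13], -23), (![5, -10, 25, 8], -19), (![-17, 34, -22, -2], 52), (![17, -13, 1, 2], -31), (![1, -1, 1, 0], -1), (![0, 0, 0, 0], 0), (![0, 0, 0, 0], 0), (![0, 0, 0, 0], 0)]
  (by decide +kernel)

def SetC (K : Finset (Fin 8) → Prop) : Set ℕ :=
  {r | ∃ φ : (Fin r → Circle) →* (Fin 8 → Circle), Continuous φ ∧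
    ∀ (t : Fin r → Circle) (z : Fin 8 → ℂ), (∃ σ, K σ ∧ ∀ i, ‖z i‖ ≤ 1 ∧ (i ∉ σ → ‖z i‖ = 1)) →
      (∀ i, (φ t i : ℂ) * z i = z i) → t = 1}

def SetR (K : Finset (Fin 8) → Prop) : Set ℕ :=
  {r | ∃ H : Submodule (ZMod 2) (Fin 8 → ZMod 2), Module.finrank (ZMod 2) H = r ∧
    ∀ h ∈ H, ∀ x : Fin 8 → ℝ, (∃ σ, K σ ∧ ∀ i, |x i| ≤ 1 ∧ (i ∉ σ → |x i| = 1)) →
      (∀ i, (-1) ^ (h i).val * x i = x i) → h = 0}

theorem setC_sub {K : Finset (Fin 8) → Prop} (h0 : K ∅) : SetC K ⊆ SetR K := by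
  classical
  rintro r ⟨φ, -, h⟩
  let χ : (Fin r → ZMod 2) → Fin r → Circle := fun x j => if x j = 0 then 1 else -1
  have c1 : ∀ x y, χ (x + y) = χ x * χ y := fun x y => funext fun j => by
    have : ∀ a b : ZMod 2, (a + b = 0 ↔ (a = 0 ↔ b = 0)) := by decide
    simp only [χ, Pi.add_apply, Pi.mul_apply, this]
    by_cases h1 : x j = 0 <;> by_cases h2 : y j = 0 <;> simp [h1, h2]
  have c0 : χ 0 = 1 := funext fun j => by simp [χ]
  have n1 : (-1 : Circle) ≠ 1 := fun e => by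
    have := congrArg (fun z : Circle => (z : ℂ)) e
    norm_num at this
  have c2 : ∀ x i, φ (χ x) i = 1 ∨ φ (χ x) i = -1 := fun x i => by
    have e : φ (χ x) i * φ (χ x) i = 1 := by
      rw [← Pi.mul_apply, ← map_mul, ← c1, show x + x = 0 from funext fun j => by
        simp [CharTwo.add_self_eq_zero], c0, map_one]; rfl
    have e2 := congrArg (fun z : Circle => (z : ℂ)) e
    simp only [Circle.coe_mul, Circle.coe_one, mul_self_eq_one_iff] at e2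
    exact e2.imp (fun e => Circle.ext e) fun e => Circle.ext e
  let L : (Fin r → ZMod 2) →+ (Fin 8 → ZMod 2) := AddMonoidHom.mk'
    (fun x i => if φ (χ x) i = 1 then 0 else 1) fun x y => funext fun i => by
      simp only [c1, map_mul, Pi.mul_apply, Pi.add_apply]
      rcases c2 x i with e | e <;> rcases c2 y i with e' | e' <;> simp [e, e', n1]
      rfl
  have c3 : ∀ x, χ x = 1 → x = 0 := fun x e => funext fun j => by_contra fun h1 =>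
    n1 ((if_neg h1).symm.trans (congrFun e j))
  have c4 : ∀ x i, (φ (χ x) i : ℂ) = (-1) ^ (L x i).val := fun x i => by
    show _ = (-1) ^ (if φ (χ x) i = 1 then (0 : ZMod 2) else 1).val
    rcases c2 x i with e | e <;> simp [e, n1, ZMod.val_one]
  refine ⟨LinearMap.range (L.toZModLinearMap 2), ?_, ?_⟩
  · rw [LinearMap.finrank_range_of_inj, Module.finrank_fin_fun]
    refine (injective_iff_map_eq_zero _).mpr fun x hx => c3 x (h _ 1 ⟨∅, h0, by simp⟩ fun i => ?_)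
    rw [c4, show L x = 0 from hx]; simp
  · rintro _ ⟨x, rfl⟩ y ⟨σ, h1, h2⟩ h3
    rw [c3 x (h _ (fun i => y i) ⟨σ, h1, by simpa using h2⟩ fun i => by
      rw [c4]; exact_mod_cast h3 i), map_zero]

theorem setR_bdd (K : Finset (Fin 8) → Prop) : BddAbove (SetR K) :=
  ⟨8, by rintro r ⟨H, rfl, -⟩; simpa using H.finrank_le⟩

def SA : Fin 8 → Fin 4 → ℤ := ![![1, 0, 1, 0], ![1, 0, 0, 1], ![1, 0, 0, 0], ![0, 1, 0, 1], ![0, 1, 1, 0], ![0, 1, 0, 0], ![0, 0, 1, 0], ![0, 0, 0, 1]]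

def IA : List (ℕ × (Fin 4 → Fin 8 → ℤ)) :=
  [(27, ![![0, 0, 1, 0, 0, 0, 0, 0], ![0, 0, 0, 0, 0, 1, 0, 0], ![0, 0, 0, 0, 0, 0, 1, 0], ![0, 0, 0, 0, 0, 0, 0, 1]]),
   (43, ![![0, 0, 1, 0, 0, 0, 0, 0], ![0, 0, 0, 0, 1, 0, -1, 0], ![0, 0, 0, 0, 0, 0, 1, 0], ![0, 0, 0, 0, 0, 0, 0, 1]]),
   (51, ![![0, 0, 1, 0, 0, 0, 0, 0], ![0, 0, 0, 1, 0, 0, 0, -1], ![0, 0, 0, 0, 0, 0, 1, 0], ![0, 0, 0, 0, 0, 0, 0, 1]]),
   (29, ![![0, 1, 0, 0, 0, 0, 0, -1], ![0, 0, 0, 0, 0, 1, 0, 0], ![0, 0, 0, 0, 0, 0, 1, 0], ![0, 0, 0, 0, 0, 0, 0, 1]]),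
   (77, ![![0, 1, 0, 0, 0, 0, 0, -1], ![0, 0, 0, 0, 0, 1, 0, 0], ![0, 0, 0, 0, 1, -1, 0, 0], ![0, 0, 0, 0, 0, 0, 0, 1]]),
   (53, ![![0, 1, 0, 0, 0, 0, 0, -1], ![0, 0, 0, 1, 0, 0, 0, -1], ![0, 0, 0, 0, 0, 0, 1, 0], ![0, 0, 0, 0, 0, 0, 0, 1]]),
   (165, ![![0, 1, 0, -1, 1, 0, -1, 0], ![0, 0, 0, 0, 1, 0, -1, 0], ![0, 0, 0, 0, 0, 0, 1, 0], ![0, 0, 0, 1, -1, 0, 1, 0]]),
   (197, ![![0, 1, 0, -1, 0, 1, 0, 0], ![0, 0, 0, 0, 0, 1, 0, 0], ![0, 0, 0, 0, 1, -1, 0, 0], ![0, 0, 0, 1, 0, -1, 0, 0]]),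
   (169, ![![0, 0, 1, 0, 0, 0, 0, 0], ![0, 0, 0, 0, 1, 0, -1, 0], ![0, 0, 0, 0, 0, 0, 1, 0], ![0, 1, -1, 0, 0, 0, 0, 0]]),
   (201, ![![0, 0, 1, 0, 0, 0, 0, 0], ![0, 0, 0, 0, 0, 1, 0, 0], ![0, 0, 0, 0, 1, -1, 0, 0], ![0, 1, -1, 0, 0, 0, 0, 0]]),
   (54, ![![1, 0, 0, 0, 0, 0, -1, 0], ![0, 0, 0, 1, 0, 0, 0, -1], ![0, 0, 0, 0, 0, 0, 1, 0], ![0, 0, 0, 0, 0, 0, 0, 1]]),
   (150, ![![1, 0, 0, 0, 0, 0, -1, 0], ![0, 0, 0, 0, 0, 1, 0, 0], ![0, 0, 0, 0, 0, 0, 1, 0], ![0, 0, 0, 1, 0, -1, 0, 0]]),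
   (166, ![![1, 0, 0, 0, 0, 0, -1, 0], ![0, 0, 0, 0, 1, 0, -1, 0], ![0, 0, 0, 0, 0, 0, 1, 0], ![0, 0, 0, 1, -1, 0, 1, 0]]),
   (90, ![![0, 0, 1, 0, 0, 0, 0, 0], ![0, 0, 0, 0, 0, 1, 0, 0], ![1, 0, -1, 0, 0, 0, 0, 0], ![0, 0, 0, 0, 0, 0, 0, 1]]),
   (106, ![![0, 0, 1, 0, 0, 0, 0, 0], ![-1, 0, 1, 0, 1, 0, 0, 0], ![1, 0, -1, 0, 0, 0, 0, 0], ![0, 0, 0, 0, 0, 0, 0, 1]]),
   (210, ![![0, 0, 1, 0, 0, 0, 0, 0], ![0, 0, 0, 0, 0, 1, 0, 0], ![1, 0, -1, 0, 0, 0, 0, 0], ![0, 0, 0, 1, 0, -1, 0, 0]]),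
   (226, ![![0, 0, 1, 0, 0, 0, 0, 0], ![-1, 0, 1, 0, 1, 0, 0, 0], ![1, 0, -1, 0, 0, 0, 0, 0], ![1, 0, -1, 1, -1, 0, 0, 0]]),
   (92, ![![0, 1, 0, 0, 0, 0, 0, -1], ![0, 0, 0, 0, 0, 1, 0, 0], ![1, -1, 0, 0, 0, 0, 0, 1], ![0, 0, 0, 0, 0, 0, 0, 1]]),
   (212, ![![0, 1, 0, -1, 0, 1, 0, 0], ![0, 0, 0, 0, 0, 1, 0, 0], ![1, -1, 0, 1, 0, -1, 0, 0], ![0, 0, 0, 1, 0, -1, 0, 0]]),
   (232, ![![0, 0, 1, 0, 0, 0, 0, 0], ![-1, 0, 1, 0, 1, 0, 0, 0], ![1, 0, -1, 0, 0, 0, 0, 0], ![0, 1, -1, 0, 0, 0, 0, 0]])]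

theorem four_mem : 4 ∈ SetC (KK BA) := by
  have k1 : ∀ n < 256, BA.testBit n = true → ∃ p ∈ IA, n &&& p.1 = n := by decide +kernel
  have k2 : ∀ p ∈ IA, ∀ j, (∀ i : Fin 8, p.1.testBit i.val = true → p.2 j i = 0) ∧
      ∀ l, ∑ i, SA i l * p.2 j i = if l = j then 1 else 0 := by decide +kernel
  refine ⟨⟨⟨fun t i => ∏ l, t l ^ SA i l, by ext i; simp⟩, fun s t => by
    ext1 i; simp [mul_zpow, prod_mul_distrib]⟩, continuous_pi fun i => by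
      show Continuous fun t : Fin 4 → Circle => ∏ l, t l ^ SA i l
      fun_prop, ?_⟩
  rintro t z ⟨σ, h1, h2⟩ h3
  obtain ⟨p, hp, e⟩ := k1 _ (code_lt σ) h1
  funext j
  have h4 : ∀ i, (∏ l, t l ^ SA i l) ^ p.2 j i = 1 := fun i => by
    by_cases h5 : i ∈ σ
    · have := (code_bit σ i).mpr h5
      rw [← e, Nat.testBit_and, Bool.and_eq_true] at this
      rw [(k2 p hp j).1 i this.2, zpow_zero]
    · have h6 : z i ≠ 0 := fun e => by simpa [e] using (h2 i).2 h5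
      have h7 : (∏ l, t l ^ SA i l) = 1 := Circle.ext (mul_left_eq_self₀.mp (h3 i) |>.resolve_right h6)
      rw [h7, one_zpow]
  have h8 : ∏ i, (∏ l, t l ^ SA i l) ^ p.2 j i = t j := by
    simp only [← prod_zpow, ← zpow_mul]
    rw [prod_comm]
    have zs : ∀ (x : Circle) (f : Fin 8 → ℤ) (s : Finset (Fin 8)),
        ∏ i ∈ s, x ^ f i = x ^ ∑ i ∈ s, f i := fun x f s => by
      induction s using Finset.induction_on with
      | empty => simp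
      | insert i s hi ih => rw [prod_insert hi, sum_insert hi, ih, zpow_add]
    simp only [zs, (k2 p hp j).2]
    simp
  rw [← h8, prod_eq_one fun i _ => h4 i]; rfl

def ok (v : Fin 8 → ZMod 2) : Prop := KK BB {i | v i ≠ 0} → v = 0

instance : DecidablePred ok := fun _ => inferInstanceAs (Decidable (_ → _))

set_option synthInstance.maxSize 4000 in
theorem no4 : ∀ a0 a1 a2 a3 : ZMod 2, ok ![1, 0, 0, 0, a0, a1, a2, a3] →
    ∀ b0 b1 b2 b3 : ZMod 2, ok ![0, 1, 0, 0, b0, b1, b2, b3] →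
    ok ![1, 1, 0, 0, a0 + b0, a1 + b1, a2 + b2, a3 + b3] →
    ∀ c0 c1 c2 c3 : ZMod 2, ok ![0, 0, 1, 0, c0, c1, c2, c3] →
    ok ![1, 0, 1, 0, a0 + c0, a1 + c1, a2 + c2, a3 + c3] →
    ok ![0, 1, 1, 0, b0 + c0, b1 + c1, b2 + c2, b3 + c3] →
    ok ![1, 1, 1, 0, a0 + b0 + c0, a1 + b1 + c1, a2 + b2 + c2, a3 + b3 + c3] →
    ∀ d0 d1 d2 d3 : ZMod 2, ok ![0, 0, 0, 1, d0, d1, d2, d3] →
    ok ![1, 0, 0, 1, a0 + d0, a1 + d1, a2 + d2, a3 + d3] →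
    ok ![0, 1, 0, 1, b0 + d0, b1 + d1, b2 + d2, b3 + d3] →
    ok ![0, 0, 1, 1, c0 + d0, c1 + d1, c2 + d2, c3 + d3] →
    ok ![1, 1, 0, 1, a0 + b0 + d0, a1 + b1 + d1, a2 + b2 + d2, a3 + b3 + d3] →
    ok ![1, 0, 1, 1, a0 + c0 + d0, a1 + c1 + d1, a2 + c2 + d2, a3 + c3 + d3] →
    ok ![0, 1, 1, 1, b0 + c0 + d0, b1 + c1 + d1, b2 + c2 + d2, b3 + c3 + d3] →
    ¬ ok ![1, 1, 1, 1, a0 + b0 + c0 + d0, a1 + b1 + c1 + d1, a2 + b2 + c2 + d2,
      a3 + b3 + c3 + d3] := by decide +kernel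

theorem le_three : 3 ∈ upperBounds (SetR (KK BB)) := by
  rintro r ⟨H, rfl, h⟩
  by_contra h0
  have hok : ∀ v ∈ H, ok v := fun v hv hK => h v hv (fun i => if v i = 0 then 1 else 0)
    ⟨_, hK, fun i => by by_cases e : v i = 0 <;> simp [e]⟩ fun i => by
      by_cases e : v i = 0 <;> simp [e]
  let ρ : H →ₗ[ZMod 2] (Fin 4 → ZMod 2) :=
    LinearMap.funLeft _ _ (Fin.castLE (by norm_num)) ∘ₗ H.subtype
  have ev : ∀ (v : Fin 8 → ZMod 2), v = ![v 0, v 1, v 2, v 3, v 4, v 5, v 6, v 7] := fun v => by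
    funext i; fin_cases i <;> rfl
  have k0 : ∀ a b c d : ZMod 2, KK BB {i | ![0, 0, 0, 0, a, b, c, d] i ≠ 0} := by decide +kernel
  have hi : Function.Injective ρ := (injective_iff_map_eq_zero _).mpr fun v hv =>
    Subtype.ext (hok v v.2 (by
      rw [ev v, show v.1 0 = 0 from congrFun hv 0, show v.1 1 = 0 from congrFun hv 1,
        show v.1 2 = 0 from congrFun hv 2, show v.1 3 = 0 from congrFun hv 3]
      exact k0 _ _ _ _))
  have hs := (LinearMap.injective_iff_surjective_of_finrank_eq_finrank (le_antisymm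
    (LinearMap.finrank_le_finrank_of_injective hi) (by simp; omega))).mp hi
  have get : ∀ p q s t : ZMod 2, ∃ a b c d, ![p, q, s, t, a, b, c, d] ∈ H := fun p q s t => by
    obtain ⟨v, hv⟩ := hs ![p, q, s, t]
    refine ⟨v.1 4, v.1 5, v.1 6, v.1 7, ?_⟩
    rw [← show v.1 0 = p from congrFun hv 0, ← show v.1 1 = q from congrFun hv 1,
      ← show v.1 2 = s from congrFun hv 2, ← show v.1 3 = t from congrFun hv 3, ← ev]
    exact v.2
  obtain ⟨a0, a1, a2, a3, ha⟩ := get 1 0 0 0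
  obtain ⟨b0, b1, b2, b3, hb⟩ := get 0 1 0 0
  obtain ⟨c0, c1, c2, c3, hc⟩ := get 0 0 1 0
  obtain ⟨d0, d1, d2, d3, hd⟩ := get 0 0 0 1
  refine no4 _ _ _ _ (hok _ ha) _ _ _ _ (hok _ hb) (hok _ ?_) _ _ _ _ (hok _ hc) (hok _ ?_)
    (hok _ ?_) (hok _ ?_) _ _ _ _ (hok _ hd) (hok _ ?_) (hok _ ?_) (hok _ ?_) (hok _ ?_)
    (hok _ ?_) (hok _ ?_) (hok _ ?_)
  · simpa using add_mem ha hb
  · simpa using add_mem ha hc
  · simpa using add_mem hb hc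
  · simpa using add_mem (add_mem ha hb) hc
  · simpa using add_mem ha hd
  · simpa using add_mem hb hd
  · simpa using add_mem hc hd
  · simpa using add_mem (add_mem ha hb) hd
  · simpa using add_mem (add_mem ha hc) hd
  · simpa using add_mem (add_mem hb hc) hd
  · simpa using add_mem (add_mem (add_mem ha hb) hc) hd

theorem buch_ne : buch (KK BA) ≠ buch (KK BB) ∧ buchR (KK BA) ≠ buchR (KK BB) := by
  have sA := setC_sub (K := KK BA) (by decide +kernel)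
  have sB := setC_sub (K := KK BB) (by decide +kernel)
  have h1 : 4 ≤ buch (KK BA) := le_csSup ((setR_bdd _).mono sA) four_mem
  have h2 : 4 ≤ buchR (KK BA) := le_csSup (setR_bdd _) (sA four_mem)
  have h3 : buch (KK BB) ≤ 3 := csSup_le' (upperBounds_mono_set sB le_three)
  have h4 : buchR (KK BB) ≤ 3 := csSup_le' le_three
  omega

end Pool.Agent.H.MP_1dea36_gt
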